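import Pool.Agent.R832.CI.Defs

set_option autoImplicit false

open MvPowerSeries

namespace Pool.Agent.R832.CI

variable {K : Type*} [Field K]

/-- The exponent vector of `x^a y^b z^c`. -/
noncomputable def e (a b c : ℕ) : Fin 3 →₀ ℕ := Finsupp.equivFunOnFinite.symm ![a, b, c]

@[simp] lemma e_zero' (a b c : ℕ) : e a b c 0 = a := rfl
@[simp] lemma e_one' (a b c : ℕ) : e a b c 1 = b := rfl
@[simp] lemma e_two' (a b c : ℕ) : e a b c 2 = c := rfl

lemma e_inj {a b c a' b' c' : ℕ} : e a b c = e a' b' c' ↔ a = a' ∧ b = b' ∧ c = c' := by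
  constructor
  · intro h
    refine ⟨?_, ?_, ?_⟩
    · simpa using DFunLike.congr_fun h 0
    · simpa using DFunLike.congr_fun h 1
    · simpa using DFunLike.congr_fun h 2
  · rintro ⟨rfl, rfl, rfl⟩; rfl

lemma e_le {a b c a' b' c' : ℕ} : e a b c ≤ e a' b' c' ↔ a ≤ a' ∧ b ≤ b' ∧ c ≤ c' := by
  rw [Finsupp.le_def]
  constructor
  · intro h
    exact ⟨by simpa using h 0, by simpa using h 1, by simpa using h 2⟩
  · rintro ⟨h0, h1, h2⟩ i
    fin_cases i
    · exact h0
    · exact h1
    · exact h2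

lemma e_add (a b c a' b' c' : ℕ) : e a b c + e a' b' c' = e (a + a') (b + b') (c + c') := by
  ext i; fin_cases i <;> rfl

lemma e_sub (a b c a' b' c' : ℕ) : e a b c - e a' b' c' = e (a - a') (b - b') (c - c') := by
  ext i; fin_cases i <;> rfl

lemma e_degree (a b c : ℕ) : (e a b c).degree = a + b + c := by
  rw [Finsupp.degree_eq_sum, Fin.sum_univ_three]; rfl

lemma eq_e (m : Fin 3 →₀ ℕ) : m = e (m 0) (m 1) (m 2) := by
  ext i; fin_cases i <;> rfl

lemma exists_e (m : Fin 3 →₀ ℕ) : ∃ a b c, m = e a b c := ⟨_, _, _, eq_e m⟩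

/-- monomials as power series. -/
noncomputable abbrev mo (K : Type*) [Field K] (a b c : ℕ) : MvPowerSeries (Fin 3) K :=
  monomial (e a b c) 1

lemma mo_mul (a b c a' b' c' : ℕ) :
    mo K a b c * mo K a' b' c' = mo K (a + a') (b + b') (c + c') := by
  rw [mo, mo, monomial_mul_monomial, e_add, one_mul]

lemma coeff_mo_mul (a b c a' b' c' : ℕ) (f : MvPowerSeries (Fin 3) K) :
    coeff (e a b c) (mo K a' b' c' * f) =
      if a' ≤ a ∧ b' ≤ b ∧ c' ≤ c then coeff (e (a - a') (b - b') (c - c')) f else 0 := by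
  classical
  rw [coeff_monomial_mul]
  simp only [e_le, e_sub, one_mul]

lemma coeff_mo (a b c a' b' c' : ℕ) :
    coeff (e a b c) (mo K a' b' c') = if a = a' ∧ b = b' ∧ c = c' then 1 else 0 := by
  classical
  rw [coeff_monomial]
  simp only [e_inj]

/-- the order filtration. -/
noncomputable def ordIdeal (K : Type*) [Field K] (i : ℕ) : Ideal (MvPowerSeries (Fin 3) K) where
  carrier := {f | (i : ℕ∞) ≤ order f}
  zero_mem' := by simp
  add_mem' := fun {f g} hf hg => (le_min hf hg).trans (min_order_le_add)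
  smul_mem' := fun c f hf => by
    show (i : ℕ∞) ≤ order (c • f)
    rw [smul_eq_mul]
    exact (le_add_left hf).trans (le_order_mul)

lemma mPow_le_ordIdeal (i : ℕ) : mPow K i ≤ ordIdeal K i := by
  induction i with
  | zero => intro f _; show ((0 : ℕ) : ℕ∞) ≤ _; simp
  | succ i ih =>
    rw [mPow, pow_succ, Ideal.mul_le]
    intro f hf g hg
    have h1 : (i : ℕ∞) ≤ order f := ih hf
    have h2 : ((1 : ℕ) : ℕ∞) ≤ order g := by
      rw [IsLocalRing.mem_maximalIdeal, mem_nonunits_iff, isUnit_iff_constantCoeff,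
        isUnit_iff_ne_zero, not_not] at hg
      rw [Nat.cast_one, Order.one_le_iff_ne_zero]
      exact order_ne_zero_iff_constCoeff_eq_zero.mpr hg
    show ((i + 1 : ℕ) : ℕ∞) ≤ _
    rw [Nat.cast_add]
    exact (add_le_add h1 h2).trans le_order_mul

lemma coeff_eq_zero_of_mem_mPow {i : ℕ} {f : MvPowerSeries (Fin 3) K} (hf : f ∈ mPow K i)
    {m : Fin 3 →₀ ℕ} (hm : m.degree < i) : coeff m f = 0 := by
  apply coeff_of_lt_order
  have : (i : ℕ∞) ≤ order f := mPow_le_ordIdeal i hf
  exact lt_of_lt_of_le (by exact_mod_cast hm) this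

lemma X_mem (a : Fin 3) : (X a : MvPowerSeries (Fin 3) K) ∈
    IsLocalRing.maximalIdeal (MvPowerSeries (Fin 3) K) := by
  rw [IsLocalRing.mem_maximalIdeal, mem_nonunits_iff, isUnit_iff_constantCoeff,
    isUnit_iff_ne_zero, not_not]
  simp

lemma single_zero_one : Finsupp.single (0 : Fin 3) 1 = e 1 0 0 := by
  ext i; fin_cases i <;> simp [e]
lemma single_one_one : Finsupp.single (1 : Fin 3) 1 = e 0 1 0 := by
  ext i; fin_cases i <;> simp [e]
lemma single_two_one : Finsupp.single (2 : Fin 3) 1 = e 0 0 1 := by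
  ext i; fin_cases i <;> simp [e]

lemma X0_eq : (X 0 : MvPowerSeries (Fin 3) K) = mo K 1 0 0 := by
  rw [X, mo, single_zero_one]
lemma X1_eq : (X 1 : MvPowerSeries (Fin 3) K) = mo K 0 1 0 := by
  rw [X, mo, single_one_one]
lemma X2_eq : (X 2 : MvPowerSeries (Fin 3) K) = mo K 0 0 1 := by
  rw [X, mo, single_two_one]

lemma mo_eq (a b c : ℕ) : mo K a b c = X 0 ^ a * X 1 ^ b * X 2 ^ c := by
  have h0 : ∀ a : ℕ, (mo K 1 0 0) ^ a = mo K a 0 0 := by
    intro a
    induction a with
    | zero => rw [pow_zero]; ext m; obtain ⟨p, q, r, rfl⟩ := exists_e m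
              rw [coeff_mo, coeff_one]
              have : e p q r = 0 ↔ p = 0 ∧ q = 0 ∧ r = 0 := by
                rw [show (0 : Fin 3 →₀ ℕ) = e 0 0 0 by ext i; fin_cases i <;> rfl, e_inj]
              simp only [this]
    | succ a ih => rw [pow_succ, ih, mo_mul]
  have h1 : ∀ a : ℕ, (mo K 0 1 0) ^ a = mo K 0 a 0 := by
    intro a
    induction a with
    | zero => rw [pow_zero, ← h0 0, pow_zero]
    | succ a ih => rw [pow_succ, ih, mo_mul]
  have h2 : ∀ a : ℕ, (mo K 0 0 1) ^ a = mo K 0 0 a := by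
    intro a
    induction a with
    | zero => rw [pow_zero, ← h0 0, pow_zero]
    | succ a ih => rw [pow_succ, ih, mo_mul]
  rw [X0_eq, X1_eq, X2_eq, h0, h1, h2, mo_mul, mo_mul]
  simp

lemma mo_mem_mPow {a b c i : ℕ} (h : i ≤ a + b + c) : mo K a b c ∈ mPow K i := by
  have h1 : mo K a b c ∈ mPow K (a + b + c) := by
    rw [mo_eq, mPow, pow_add, pow_add]
    exact Ideal.mul_mem_mul (Ideal.mul_mem_mul (Ideal.pow_mem_pow (X_mem 0) a)
      (Ideal.pow_mem_pow (X_mem 1) b)) (Ideal.pow_mem_pow (X_mem 2) c)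
  exact Ideal.pow_le_pow_right h h1

lemma mono_mem_mPow {m : Fin 3 →₀ ℕ} {i : ℕ} (h : i ≤ m.degree) :
    (monomial m (1 : K)) ∈ mPow K i := by
  obtain ⟨a, b, c, rfl⟩ := exists_e m
  rw [e_degree] at h
  exact mo_mem_mPow h

open Classical in
/-- A power series supported on the multiples of finitely many monomials in `I` lies in `I`. -/
lemma mem_of_support (I : Ideal (MvPowerSeries (Fin 3) K)) (G : List (Fin 3 →₀ ℕ)) :
    (∀ n ∈ G, (monomial n (1 : K)) ∈ I) → ∀ f : MvPowerSeries (Fin 3) K,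
      (∀ m, (∀ n ∈ G, ¬ n ≤ m) → coeff m f = 0) → f ∈ I := by
  induction G with
  | nil =>
    intro _ f hf
    have : f = 0 := by ext m; simpa using hf m (by simp)
    rw [this]; exact I.zero_mem
  | cons n G ih =>
    intro hG f hf
    set g : MvPowerSeries (Fin 3) K := fun m => coeff (n + m) f with hg
    have h1 : monomial n (1 : K) * g ∈ I := I.mul_mem_right _ (hG n (by simp))
    have h2 : f - monomial n (1 : K) * g ∈ I := by
      apply ih (fun m hm => hG m (List.mem_cons_of_mem _ hm))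
      intro m hm
      rw [map_sub, coeff_monomial_mul]
      split_ifs with hnm
      · have : coeff (m - n) g = coeff (n + (m - n)) f := rfl
        rw [this, add_tsub_cancel_of_le hnm, one_mul, sub_self]
      · rw [sub_zero]
        apply hf
        intro n' hn'
        rcases List.mem_cons.mp hn' with rfl | h
        · exact hnm
        · exact hm n' h
    have := I.add_mem h2 h1
    rwa [sub_add_cancel] at this

end Pool.Agent.R832.CI
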