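import Pool.Agent.R832.CI.Basic

set_option autoImplicit false

open MvPowerSeries

namespace Pool.Agent.R832.CI

variable {K : Type*} [Field K] {T : ℕ → ℕ}

open Classical in
lemma coeff_sum_mono (B : Finset (Fin 3 →₀ ℕ)) (c : (Fin 3 →₀ ℕ) → K) (m : Fin 3 →₀ ℕ) :
    coeff m (∑ β ∈ B, c β • monomial β (1 : K)) = if m ∈ B then c m else 0 := by
  rw [map_sum]
  simp only [coeff_smul, coeff_monomial, mul_ite, mul_one, mul_zero]
  rw [Finset.sum_ite_eq B m c]

lemma sum_coe_mono (I : CI K T) (B : Finset (Fin 3 →₀ ℕ)) (c : (Fin 3 →₀ ℕ) → K) :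
    ∑ b : B, c b.1 • cls I b.1 =
      Ideal.Quotient.mk I.1 (∑ β ∈ B, c β • monomial β (1 : K)) := by
  rw [map_sum, ← Finset.sum_coe_sort B]
  rfl

lemma sum_mono (I : CI K T) (B : Finset (Fin 3 →₀ ℕ)) (c : (Fin 3 →₀ ℕ) → K) :
    ∑ β ∈ B, c β • cls I β =
      Ideal.Quotient.mk I.1 (∑ β ∈ B, c β • monomial β (1 : K)) := by
  rw [map_sum]
  rfl

lemma cls_eq_iff (I : CI K T) (B : Finset (Fin 3 →₀ ℕ)) (α : Fin 3 →₀ ℕ)
    (c : (Fin 3 →₀ ℕ) → K) : cls I α = ∑ β ∈ B, c β • cls I β ↔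
      monomial α (1 : K) - ∑ β ∈ B, c β • monomial β (1 : K) ∈ I.1 := by
  rw [sum_mono, cls, Ideal.Quotient.eq]

lemma isCoord_iff {B : Finset (Fin 3 →₀ ℕ)} {I : CI K T}
    {c : (Fin 3 →₀ ℕ) → (Fin 3 →₀ ℕ) → K} : IsCoord B I c ↔
      (∀ α, monomial α (1 : K) - ∑ β ∈ B, c α β • monomial β (1 : K) ∈ I.1) ∧
        ∀ α β, β ∉ B → c α β = 0 := by
  simp only [IsCoord, cls_eq_iff]

/-- In a chart, combinations of the basis monomials in `I` vanish. -/
lemma chart_indep {B : Finset (Fin 3 →₀ ℕ)} {I : CI K T} (h : InChart B I)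
    (c : (Fin 3 →₀ ℕ) → K) (hc : ∑ β ∈ B, c β • monomial β (1 : K) ∈ I.1) :
    ∀ β ∈ B, c β = 0 := by
  have h1 := Fintype.linearIndependent_iff.mp h.1 (fun b => c b.1) (by
    rw [sum_coe_mono, Ideal.Quotient.eq_zero_iff_mem]; exact hc)
  intro β hβ
  exact h1 ⟨β, hβ⟩

/-- In a chart, every power series is congruent to a combination of the basis monomials. -/
lemma chart_span {B : Finset (Fin 3 →₀ ℕ)} {I : CI K T} (h : InChart B I)
    (f : MvPowerSeries (Fin 3) K) :
    ∃ c : (Fin 3 →₀ ℕ) → K, (∀ β, β ∉ B → c β = 0) ∧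
      f - ∑ β ∈ B, c β • monomial β (1 : K) ∈ I.1 := by
  classical
  have h1 : Ideal.Quotient.mk I.1 f ∈
      Submodule.span K (Set.range fun b : B => cls I b.1) := by
    rw [h.2]; trivial
  rw [Submodule.mem_span_range_iff_exists_fun] at h1
  obtain ⟨c, hc⟩ := h1
  refine ⟨fun β => if hβ : β ∈ B then c ⟨β, hβ⟩ else 0, fun β hβ => dif_neg hβ, ?_⟩
  rw [← Ideal.Quotient.eq_zero_iff_mem, map_sub, ← sum_coe_mono, ← hc, sub_eq_zero]
  refine Finset.sum_congr rfl (fun b _ => ?_)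
  rw [dif_pos b.2]

lemma exists_coord {B : Finset (Fin 3 →₀ ℕ)} {I : CI K T} (h : InChart B I) :
    ∃ c, IsCoord B I c := by
  choose c hc0 hc using fun α => chart_span h (monomial α (1 : K))
  exact ⟨c, isCoord_iff.mpr ⟨hc, hc0⟩⟩

lemma finrank_quot (I : CI K T) (i : ℕ) :
    Module.finrank K (MvPowerSeries (Fin 3) K ⧸ (I.1 ⊔ mPow K i)) = ∑ k ∈ Finset.range i, T k := by
  induction i with
  | zero =>
    have h : I.1 ⊔ mPow K 0 = ⊤ := by rw [mPow, pow_zero, Ideal.one_eq_top, sup_top_eq]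
    rw [h]
    have : Subsingleton (MvPowerSeries (Fin 3) K ⧸ (⊤ : Ideal (MvPowerSeries (Fin 3) K))) :=
      Ideal.Quotient.subsingleton_iff.mpr rfl
    rw [Module.finrank_zero_of_subsingleton]; simp
  | succ i ih => rw [I.2.2 i, ih, Finset.sum_range_succ]

/-- In a chart with the right number of monomials of degree at least `i`, these monomials span
`m ^ i A`. -/
lemma chart_pow {B : Finset (Fin 3 →₀ ℕ)} {I : CI K T} (h : InChart B I) (i : ℕ)
    (hcard : (B.filter (fun β => i ≤ β.degree)).card + ∑ k ∈ Finset.range i, T k = B.card)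
    {u : MvPowerSeries (Fin 3) K} (hu : u ∈ I.1 ⊔ mPow K i) :
    ∃ c : (Fin 3 →₀ ℕ) → K,
      u - ∑ β ∈ B.filter (fun β => i ≤ β.degree), c β • monomial β (1 : K) ∈ I.1 := by
  classical
  set B' := B.filter (fun β => i ≤ β.degree) with hB'
  let π : (MvPowerSeries (Fin 3) K ⧸ I.1) →ₗ[K] (MvPowerSeries (Fin 3) K ⧸ (I.1 ⊔ mPow K i)) :=
    (Ideal.Quotient.factorₐ K (le_sup_left : I.1 ≤ I.1 ⊔ mPow K i)).toLinearMap
  have hπs : Function.Surjective π :=
    Ideal.Quotient.factor_surjective (le_sup_left : I.1 ≤ I.1 ⊔ mPow K i)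
  have hπmk : ∀ f, π (Ideal.Quotient.mk _ f) = Ideal.Quotient.mk _ f := fun f => rfl
  have b := Module.Basis.mk h.1 h.2.ge
  have hfd : FiniteDimensional K (MvPowerSeries (Fin 3) K ⧸ I.1) := b.finiteDimensional_of_finite
  have hdim : Module.finrank K (MvPowerSeries (Fin 3) K ⧸ I.1) = B.card := by
    rw [Module.finrank_eq_card_basis b, Fintype.card_coe]
  have hker : Module.finrank K (LinearMap.ker π) = B'.card := by
    have h1 := LinearMap.finrank_range_add_finrank_ker π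
    rw [LinearMap.range_eq_top.mpr hπs, finrank_top, finrank_quot, hdim] at h1
    omega
  have hli : LinearIndependent K (fun b : B' => cls I b.1) :=
    h.1.comp (fun b : B' => (⟨b.1, (Finset.mem_filter.mp b.2).1⟩ : B)) (fun x y hxy => by
      have := congrArg Subtype.val hxy
      exact Subtype.ext this)
  have hspan : Submodule.span K (Set.range fun b : B' => cls I b.1) = LinearMap.ker π := by
    apply Submodule.eq_of_le_of_finrank_eq
    · rw [Submodule.span_le]
      rintro _ ⟨b, rfl⟩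
      show π (Ideal.Quotient.mk _ _) = 0
      rw [hπmk, Ideal.Quotient.eq_zero_iff_mem]
      exact Ideal.mem_sup_right (mono_mem_mPow (Finset.mem_filter.mp b.2).2)
    · rw [finrank_span_eq_card hli, hker, Fintype.card_coe]
  have hmem : Ideal.Quotient.mk I.1 u ∈ Submodule.span K (Set.range fun b : B' => cls I b.1) := by
    rw [hspan, LinearMap.mem_ker, hπmk, Ideal.Quotient.eq_zero_iff_mem]
    exact hu
  rw [Submodule.mem_span_range_iff_exists_fun] at hmem
  obtain ⟨c, hc⟩ := hmem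
  refine ⟨fun β => if hβ : β ∈ B' then c ⟨β, hβ⟩ else 0, ?_⟩
  rw [← Ideal.Quotient.eq_zero_iff_mem, map_sub, ← sum_coe_mono, ← hc, sub_eq_zero]
  refine Finset.sum_congr rfl (fun b _ => ?_)
  rw [dif_pos b.2]

/-- In such a chart, combinations of the basis monomials of degree less than `i` in `I + m ^ i`
vanish. -/
lemma chart_pow_indep {B : Finset (Fin 3 →₀ ℕ)} {I : CI K T} (h : InChart B I) (i : ℕ)
    (hcard : (B.filter (fun β => i ≤ β.degree)).card + ∑ k ∈ Finset.range i, T k = B.card)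
    (c : (Fin 3 →₀ ℕ) → K) (hc : ∑ β ∈ B, c β • monomial β (1 : K) ∈ I.1 ⊔ mPow K i) :
    ∀ β ∈ B, β.degree < i → c β = 0 := by
  classical
  obtain ⟨d, hd⟩ := chart_pow h i hcard hc
  intro β hβ hlt
  have h1 : ∑ β ∈ B, (c β - if i ≤ β.degree then d β else 0) • monomial β (1 : K) ∈ I.1 := by
    have h2 : ∑ β ∈ B, (c β - if i ≤ β.degree then d β else 0) • monomial β (1 : K) =
        ∑ β ∈ B, c β • monomial β (1 : K) -
          ∑ β ∈ B.filter (fun β => i ≤ β.degree), d β • monomial β (1 : K) := by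
      rw [Finset.sum_filter, ← Finset.sum_sub_distrib]
      refine Finset.sum_congr rfl (fun β _ => ?_)
      rw [sub_smul]
      split_ifs <;> simp
    rw [h2]; exact hd
  have := chart_indep h _ h1 β hβ
  rwa [if_neg (by omega), sub_zero] at this

end Pool.Agent.R832.CI
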