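import Mathlib

/-!
# The family `CI(T)` of complete intersection quotients of `K[[x, y, z]]` with Hilbert function `T`

* `mPow K i`: the power `m ^ i` of the maximal ideal of `R = K[[x_0, x_1, x_2]]`.
* `CI K T`: the ideals `I` of `R` generated by three elements such that `A = R / I` has Hilbert
  function `T`, that is `dim (A / m ^ (i + 1) A) = dim (A / m ^ i A) + T i` for all `i`.
* its Zariski topology, generated by the principal open subsets of the standard charts (of the
  Hilbert scheme of points) in which a set `B` of monomials is a basis of `R / I`.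
-/

set_option autoImplicit false

open MvPowerSeries

namespace Pool.Agent.R832.CI

/-- The power `m ^ i` of the maximal ideal `m` of `K[[x_0, x_1, x_2]]`. -/
noncomputable def mPow (K : Type*) [Field K] (i : ℕ) : Ideal (MvPowerSeries (Fin 3) K) :=
  IsLocalRing.maximalIdeal (MvPowerSeries (Fin 3) K) ^ i

/-- `I` is generated by three elements and `A = R / I` has Hilbert function `T`:
`dim (A / m ^ (i + 1) A) = dim (A / m ^ i A) + T i`, so `dim (m ^ i A / m ^ (i + 1) A) = T i`. -/
def IsCI {K : Type*} [Field K] (T : ℕ → ℕ) (I : Ideal (MvPowerSeries (Fin 3) K)) : Prop :=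
  (∃ f g h, I = Ideal.span {f, g, h}) ∧
    ∀ i, Module.finrank K (MvPowerSeries (Fin 3) K ⧸ (I ⊔ mPow K (i + 1))) =
      Module.finrank K (MvPowerSeries (Fin 3) K ⧸ (I ⊔ mPow K i)) + T i

/-- `CI(T)`: the ideals `I` of `R = K[[x_0, x_1, x_2]]` such that `R / I` is a complete intersection
with Hilbert function `T`. -/
def CI (K : Type*) [Field K] (T : ℕ → ℕ) : Type _ :=
  {I : Ideal (MvPowerSeries (Fin 3) K) // IsCI T I}

variable {K : Type*} [Field K] {T : ℕ → ℕ}

/-- The class in `R / I` of the monomial `x^α`. -/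
noncomputable def cls (I : CI K T) (α : Fin 3 →₀ ℕ) : MvPowerSeries (Fin 3) K ⧸ I.1 :=
  Ideal.Quotient.mk I.1 (monomial α 1)

/-- `I` lies in the standard chart of `B`: the monomials with exponents in the finite set `B`
form a basis of `R / I`. -/
def InChart (B : Finset (Fin 3 →₀ ℕ)) (I : CI K T) : Prop :=
  LinearIndependent K (fun b : B => cls I b.1) ∧
  Submodule.span K (Set.range fun b : B => cls I b.1) = ⊤

/-- `c` is the coordinate vector of `I` in the chart `B`: every monomial `x^α` is congruent to
`∑_{β ∈ B} c α β * x^β` modulo `I`. (For `I` in the chart there is exactly one such `c`.) -/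
def IsCoord (B : Finset (Fin 3 →₀ ℕ)) (I : CI K T) (c : (Fin 3 →₀ ℕ) → (Fin 3 →₀ ℕ) → K) : Prop :=
  (∀ α, cls I α = ∑ β ∈ B, c α β • cls I β) ∧ ∀ α β, β ∉ B → c α β = 0

/-- The principal open subset of the chart `B` where the polynomial `P` in the coordinates does not
vanish. -/
def principalOpen (T : ℕ → ℕ) (B : Finset (Fin 3 →₀ ℕ))
    (P : MvPolynomial ((Fin 3 →₀ ℕ) × (Fin 3 →₀ ℕ)) K) : Set (CI K T) :=
  {I | InChart B I ∧ ∀ c, IsCoord B I c → MvPolynomial.eval (fun p => c p.1 p.2) P ≠ 0}

/-- The Zariski topology of `CI(T)`: it is generated by the principal open subsets of the standard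
charts. -/
instance zariski (K : Type*) [Field K] (T : ℕ → ℕ) : TopologicalSpace (CI K T) :=
  TopologicalSpace.generateFrom {U | ∃ B P, U = principalOpen T B P}

/-- The sequence `T = (1, 3, 4, 4, 3, 2, 1, 0, 0, …)`. -/
def T0 (i : ℕ) : ℕ := [1, 3, 4, 4, 3, 2, 1].getD i 0

end Pool.Agent.R832.CI
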