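import Pool.Agent.R832.CI.Chart

set_option autoImplicit false

open MvPowerSeries

namespace Pool.Agent.R832.CI

variable {K : Type*} [Field K]

/-- exponent vector of a triple -/
noncomputable def E (t : ℕ × ℕ × ℕ) : Fin 3 →₀ ℕ := e t.1 t.2.1 t.2.2

lemma E_inj : Function.Injective E := by
  rintro ⟨a, b, c⟩ ⟨a', b', c'⟩ h
  obtain ⟨h0, h1, h2⟩ := e_inj.mp h
  simp only at h0 h1 h2
  rw [h0, h1, h2]

/-- triples for the first chart -/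
def L1 : Finset (ℕ × ℕ × ℕ) :=
  {(0, 0, 0), (1, 0, 0), (2, 0, 0), (3, 0, 0), (0, 1, 0), (1, 1, 0), (2, 1, 0), (3, 1, 0),
   (0, 0, 1), (0, 0, 2), (0, 0, 3), (0, 0, 4), (0, 0, 5),
   (0, 1, 1), (0, 1, 2), (0, 1, 3), (0, 1, 4), (0, 1, 5)}

/-- triples for the second chart -/
def L2 : Finset (ℕ × ℕ × ℕ) :=
  {(0, 0, 0), (0, 0, 1), (0, 0, 2), (0, 0, 3), (0, 0, 4),
   (0, 1, 0), (0, 1, 1), (0, 1, 2), (0, 1, 3), (0, 1, 4),
   (0, 2, 0), (0, 2, 1), (0, 2, 2), (0, 2, 3), (0, 2, 4),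
   (1, 0, 0), (2, 0, 0), (3, 0, 0)}

/-- `{x^a y^b : a ≤ 3, b ≤ 1} ∪ {y^b z^c : b ≤ 1, 1 ≤ c ≤ 5}` -/
noncomputable def B1 : Finset (Fin 3 →₀ ℕ) := L1.map ⟨E, E_inj⟩

/-- `{y^b z^c : b ≤ 2, c ≤ 4} ∪ {x, x^2, x^3}` -/
noncomputable def B2 : Finset (Fin 3 →₀ ℕ) := L2.map ⟨E, E_inj⟩

lemma mem_B1 {m : Fin 3 →₀ ℕ} : m ∈ B1 ↔ ∃ t ∈ L1, E t = m := by
  simp [B1]

lemma mem_B2 {m : Fin 3 →₀ ℕ} : m ∈ B2 ↔ ∃ t ∈ L2, E t = m := by
  simp [B2]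

lemma E_mem_B1 {t : ℕ × ℕ × ℕ} : E t ∈ B1 ↔ t ∈ L1 := by
  rw [mem_B1]
  constructor
  · rintro ⟨s, hs, h⟩; rwa [← E_inj h]
  · intro h; exact ⟨t, h, rfl⟩

lemma E_mem_B2 {t : ℕ × ℕ × ℕ} : E t ∈ B2 ↔ t ∈ L2 := by
  rw [mem_B2]
  constructor
  · rintro ⟨s, hs, h⟩; rwa [← E_inj h]
  · intro h; exact ⟨t, h, rfl⟩

lemma filter_map_E (L : Finset (ℕ × ℕ × ℕ)) (i : ℕ) :
    (L.map ⟨E, E_inj⟩).filter (fun β => i ≤ β.degree) =
      (L.filter (fun t => i ≤ t.1 + t.2.1 + t.2.2)).map ⟨E, E_inj⟩ := by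
  rw [Finset.filter_map]
  congr 1
  apply Finset.filter_congr
  intro t _
  simp only [Function.comp, Function.Embedding.coeFn_mk, E, e_degree]

lemma card1 {i : ℕ} (hi : i ≤ 7) :
    (B1.filter (fun β => i ≤ β.degree)).card + ∑ k ∈ Finset.range i, T0 k = B1.card := by
  rw [B1, filter_map_E, Finset.card_map, Finset.card_map]
  interval_cases i <;> decide

lemma card2 {i : ℕ} (hi : i ≤ 7) :
    (B2.filter (fun β => i ≤ β.degree)).card + ∑ k ∈ Finset.range i, T0 k = B2.card := by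
  rw [B2, filter_map_E, Finset.card_map, Finset.card_map]
  interval_cases i <;> decide

lemma coord_pow {T : ℕ → ℕ} {B : Finset (Fin 3 →₀ ℕ)} {I : CI K T} (h : InChart B I) (i : ℕ)
    (hcard : (B.filter (fun β => i ≤ β.degree)).card + ∑ k ∈ Finset.range i, T k = B.card)
    {c : (Fin 3 →₀ ℕ) → (Fin 3 →₀ ℕ) → K} (hc : IsCoord B I c) {α : Fin 3 →₀ ℕ}
    (hα : i ≤ α.degree) :
    monomial α (1 : K) - ∑ β ∈ B.filter (fun β => i ≤ β.degree), c α β • monomial β (1 : K) ∈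
      I.1 := by
  have h1 := (isCoord_iff.mp hc).1 α
  have h2 : ∑ β ∈ B, c α β • monomial β (1 : K) ∈ I.1 ⊔ mPow K i := by
    have h3 : ∑ β ∈ B, c α β • monomial β (1 : K) = monomial α (1 : K) -
      (monomial α (1 : K) - ∑ β ∈ B, c α β • monomial β (1 : K)) := by ring
    rw [h3]
    exact Ideal.sub_mem _ (Ideal.mem_sup_right (mono_mem_mPow hα)) (Ideal.mem_sup_left h1)
  have h4 := chart_pow_indep h i hcard _ h2
  have h5 : ∑ β ∈ B.filter (fun β => i ≤ β.degree), c α β • monomial β (1 : K) =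
      ∑ β ∈ B, c α β • monomial β (1 : K) := by
    rw [Finset.sum_filter]
    refine Finset.sum_congr rfl (fun β hβ => ?_)
    split_ifs with hi
    · rfl
    · rw [h4 β hβ (by omega), zero_smul]
  rw [h5]; exact h1

lemma exists_ne (A B : Fin 3 → K) : ∃ l : Fin 3 → K, l ≠ 0 ∧
    l 0 * A 0 + l 1 * A 1 + l 2 * A 2 = 0 ∧ l 0 * B 0 + l 1 * B 1 + l 2 * B 2 = 0 := by
  let f : (Fin 3 → K) →ₗ[K] (Fin 2 → K) := Matrix.mulVecLin !![A 0, A 1, A 2; B 0, B 1, B 2]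
  have hf : LinearMap.ker f ≠ ⊥ := LinearMap.ker_ne_bot_of_finrank_lt (by simp)
  obtain ⟨l, hl, hl0⟩ := Submodule.exists_mem_ne_zero_of_ne_bot hf
  rw [LinearMap.mem_ker] at hl
  refine ⟨l, hl0, ?_, ?_⟩
  · have := congrFun hl 0
    simp [f, Matrix.mulVec, dotProduct, Fin.sum_univ_three] at this
    linear_combination this
  · have := congrFun hl 1
    simp [f, Matrix.mulVec, dotProduct, Fin.sum_univ_three] at this
    linear_combination this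

/-- the linear form with coefficient vector `l`. -/
noncomputable def lin (l : Fin 3 → K) : MvPowerSeries (Fin 3) K :=
  l 0 • mo K 1 0 0 + l 1 • mo K 0 1 0 + l 2 • mo K 0 0 1

lemma lin_mem (l : Fin 3 → K) : lin l ∈ mPow K 1 := by
  have h : ∀ r : K, ∀ u ∈ mPow K 1, r • u ∈ mPow K 1 := fun r u hu =>
    ((mPow K 1).restrictScalars K).smul_mem r hu
  exact add_mem (add_mem (h _ _ (mo_mem_mPow (by omega))) (h _ _ (mo_mem_mPow (by omega))))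
    (h _ _ (mo_mem_mPow (by omega)))

lemma mul_mem_mPow {i j k : ℕ} (h : k ≤ i + j) {u v : MvPowerSeries (Fin 3) K}
    (hu : u ∈ mPow K i) (hv : v ∈ mPow K j) : u * v ∈ mPow K k := by
  have : u * v ∈ mPow K (i + j) := by
    rw [mPow, pow_add]; exact Ideal.mul_mem_mul hu hv
  exact Ideal.pow_le_pow_right h this

lemma smul_mem' (I : Ideal (MvPowerSeries (Fin 3) K)) (r : K) {u : MvPowerSeries (Fin 3) K}
    (hu : u ∈ I) : r • u ∈ I := (I.restrictScalars K).smul_mem r hu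

lemma smul_mono_mem {T : ℕ → ℕ} (I : CI K T) {m : Fin 3 →₀ ℕ} {r : K}
    (h : r • monomial m (1 : K) ∈ I.1) (h0 : monomial m (1 : K) ∉ I.1) : r = 0 := by
  by_contra hr
  apply h0
  have := smul_mem' I.1 r⁻¹ h
  rwa [smul_smul, inv_mul_cancel₀ hr, one_smul] at this

/-- The first polynomial: the discriminant of the element `x z - y ^ 2 + ⋯` of the pencil. -/
noncomputable def P1 (K : Type*) [Field K] : MvPolynomial ((Fin 3 →₀ ℕ) × (Fin 3 →₀ ℕ)) K :=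
  let D : (Fin 3 →₀ ℕ) → MvPolynomial ((Fin 3 →₀ ℕ) × (Fin 3 →₀ ℕ)) K := fun β =>
    MvPolynomial.X (e 0 2 0, β) - MvPolynomial.X (e 1 0 1, β)
  1 - 4 * D (e 2 0 0) * D (e 0 0 2) + D (e 1 1 0) * D (e 0 1 1) -
    D (e 2 0 0) * D (e 0 1 1) ^ 2 - D (e 0 0 2) * D (e 1 1 0) ^ 2

lemma eval_P1 (c : (Fin 3 →₀ ℕ) → (Fin 3 →₀ ℕ) → K) :
    MvPolynomial.eval (fun p => c p.1 p.2) (P1 K) =
      1 - 4 * (c (e 0 2 0) (e 2 0 0) - c (e 1 0 1) (e 2 0 0)) *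
        (c (e 0 2 0) (e 0 0 2) - c (e 1 0 1) (e 0 0 2)) +
      (c (e 0 2 0) (e 1 1 0) - c (e 1 0 1) (e 1 1 0)) *
        (c (e 0 2 0) (e 0 1 1) - c (e 1 0 1) (e 0 1 1)) -
      (c (e 0 2 0) (e 2 0 0) - c (e 1 0 1) (e 2 0 0)) *
        (c (e 0 2 0) (e 0 1 1) - c (e 1 0 1) (e 0 1 1)) ^ 2 -
      (c (e 0 2 0) (e 0 0 2) - c (e 1 0 1) (e 0 0 2)) *
        (c (e 0 2 0) (e 1 1 0) - c (e 1 0 1) (e 1 1 0)) ^ 2 := by
  simp [P1]

/-- The matrix of the pairing of `y^2, y z, z^2` with `z^4, y z^3, y^2 z^2`. -/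
noncomputable def PMat (K : Type*) [Field K] :
    Matrix (Fin 3) (Fin 3) (MvPolynomial ((Fin 3 →₀ ℕ) × (Fin 3 →₀ ℕ)) K) :=
  Matrix.of fun p q => MvPolynomial.X (e 0 (2 - p.1 + q.1) (p.1 + (4 - q.1)), e 0 2 4)

/-- The second polynomial. -/
noncomputable def P2 (K : Type*) [Field K] : MvPolynomial ((Fin 3 →₀ ℕ) × (Fin 3 →₀ ℕ)) K :=
  (PMat K).det

lemma eval_P2 (c : (Fin 3 →₀ ℕ) → (Fin 3 →₀ ℕ) → K) :
    MvPolynomial.eval (fun p => c p.1 p.2) (P2 K) =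
      Matrix.det (Matrix.of fun p q : Fin 3 =>
        c (e 0 (2 - p.1 + q.1) (p.1 + (4 - q.1))) (e 0 2 4)) := by
  rw [P2, RingHom.map_det]
  congr 1
  ext p q
  simp [PMat]

end Pool.Agent.R832.CI
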