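import Pool.Agent.R832.CI.Disjoint

set_option autoImplicit false

open MvPowerSeries

namespace Pool.Agent.R832.CI

variable {K : Type*} [Field K]

section chart2
variable {I : CI K T0} (h : InChart B2 I)

include h in
lemma mem_of_mPow7 {u : MvPowerSeries (Fin 3) K} (hu : u ∈ mPow K 7) : u ∈ I.1 := by
  obtain ⟨c, hc⟩ := chart_pow h 7 (card2 le_rfl) (Ideal.mem_sup_right hu)
  have hf : B2.filter (fun β => 7 ≤ β.degree) = ∅ := by
    rw [B2, filter_map_E, Finset.map_eq_empty]; decide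
  rw [hf, Finset.sum_empty, sub_zero] at hc
  exact hc

lemma filter6 : B2.filter (fun β => 6 ≤ β.degree) = {e 0 2 4} := by
  rw [B2, filter_map_E]
  have : (L2.filter (fun t => 6 ≤ t.1 + t.2.1 + t.2.2)) = {(0, 2, 4)} := by decide
  rw [this, Finset.map_singleton]; rfl

lemma filter5 : B2.filter (fun β => 5 ≤ β.degree) = {e 0 1 4, e 0 2 3, e 0 2 4} := by
  rw [B2, filter_map_E]
  have : (L2.filter (fun t => 5 ≤ t.1 + t.2.1 + t.2.2)) = {(0, 1, 4), (0, 2, 3), (0, 2, 4)} := by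
    decide
  rw [this]
  simp only [Finset.map_insert, Finset.map_singleton]; rfl

include h in
lemma top_notMem : monomial (e 0 2 4) (1 : K) ∉ I.1 := by
  intro hmem
  have hB : e 0 2 4 ∈ B2 := (E_mem_B2 (t := (0, 2, 4))).mpr (by decide)
  have := chart_indep h (fun β => if β = e 0 2 4 then 1 else 0) (by
    rw [Finset.sum_eq_single (e 0 2 4)]
    · rw [if_pos rfl, one_smul]; exact hmem
    · intro b _ hb
      rw [if_neg hb, zero_smul]
    · intro hb; exact absurd hB hb) _ hB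
  simp at this

include h in
lemma coord6 {c : (Fin 3 →₀ ℕ) → (Fin 3 →₀ ℕ) → K} (hc : IsCoord B2 I c) {α : Fin 3 →₀ ℕ}
    (hα : 6 ≤ α.degree) :
    monomial α (1 : K) - c α (e 0 2 4) • monomial (e 0 2 4) (1 : K) ∈ I.1 := by
  have := coord_pow h 6 (card2 (by omega)) hc hα
  rwa [filter6, Finset.sum_singleton] at this

include h in
/-- There is a nonzero linear form `ℓ` with `ℓ m ^ 5 ⊆ I`. -/
lemma exists_lin : ∃ l : Fin 3 → K, l ≠ 0 ∧ ∀ u ∈ mPow K 5, lin l * u ∈ I.1 := by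
  obtain ⟨c, hc⟩ := exists_coord h
  obtain ⟨l, hl0, h1, h2⟩ := exists_ne ![c (e 1 1 4) (e 0 2 4), c (e 0 2 4) (e 0 2 4),
    c (e 0 1 5) (e 0 2 4)] ![c (e 1 2 3) (e 0 2 4), c (e 0 3 3) (e 0 2 4), c (e 0 2 4) (e 0 2 4)]
  simp only [Matrix.cons_val_zero, Matrix.cons_val_one, Matrix.cons_val] at h1 h2
  refine ⟨l, hl0, fun u hu => ?_⟩
  obtain ⟨d, hd⟩ := chart_pow h 5 (card2 (by omega)) (Ideal.mem_sup_right hu)
  rw [filter5] at hd
  have hw1 : lin l * mo K 0 1 4 ∈ I.1 := by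
    have e0 := coord6 h hc (α := e 1 1 4) (by rw [e_degree])
    have e1 := coord6 h hc (α := e 0 2 4) (by rw [e_degree])
    have e2 := coord6 h hc (α := e 0 1 5) (by rw [e_degree])
    have e3 := add_mem (add_mem (smul_mem' I.1 (l 0) e0) (smul_mem' I.1 (l 1) e1))
      (smul_mem' I.1 (l 2) e2)
    have e4 : lin l * mo K 0 1 4 = l 0 • mo K 1 1 4 + l 1 • mo K 0 2 4 + l 2 • mo K 0 1 5 := by
      simp only [lin, add_mul, smul_mul_assoc, mo_mul]
    have e5 : lin l * mo K 0 1 4 =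
        l 0 • (monomial (e 1 1 4) (1 : K) - c (e 1 1 4) (e 0 2 4) • monomial (e 0 2 4) (1 : K)) +
        l 1 • (monomial (e 0 2 4) (1 : K) - c (e 0 2 4) (e 0 2 4) • monomial (e 0 2 4) (1 : K)) +
        l 2 • (monomial (e 0 1 5) (1 : K) - c (e 0 1 5) (e 0 2 4) • monomial (e 0 2 4) (1 : K)) +
        (l 0 * c (e 1 1 4) (e 0 2 4) + l 1 * c (e 0 2 4) (e 0 2 4) +
          l 2 * c (e 0 1 5) (e 0 2 4)) • monomial (e 0 2 4) (1 : K) := by
      rw [e4]; module
    rw [e5, h1, zero_smul, add_zero]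
    exact e3
  have hw2 : lin l * mo K 0 2 3 ∈ I.1 := by
    have e0 := coord6 h hc (α := e 1 2 3) (by rw [e_degree])
    have e1 := coord6 h hc (α := e 0 3 3) (by rw [e_degree])
    have e2 := coord6 h hc (α := e 0 2 4) (by rw [e_degree])
    have e3 := add_mem (add_mem (smul_mem' I.1 (l 0) e0) (smul_mem' I.1 (l 1) e1))
      (smul_mem' I.1 (l 2) e2)
    have e4 : lin l * mo K 0 2 3 = l 0 • mo K 1 2 3 + l 1 • mo K 0 3 3 + l 2 • mo K 0 2 4 := by
      simp only [lin, add_mul, smul_mul_assoc, mo_mul]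
    have e5 : lin l * mo K 0 2 3 =
        l 0 • (monomial (e 1 2 3) (1 : K) - c (e 1 2 3) (e 0 2 4) • monomial (e 0 2 4) (1 : K)) +
        l 1 • (monomial (e 0 3 3) (1 : K) - c (e 0 3 3) (e 0 2 4) • monomial (e 0 2 4) (1 : K)) +
        l 2 • (monomial (e 0 2 4) (1 : K) - c (e 0 2 4) (e 0 2 4) • monomial (e 0 2 4) (1 : K)) +
        (l 0 * c (e 1 2 3) (e 0 2 4) + l 1 * c (e 0 3 3) (e 0 2 4) +
          l 2 * c (e 0 2 4) (e 0 2 4)) • monomial (e 0 2 4) (1 : K) := by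
      rw [e4]; module
    rw [e5, h2, zero_smul, add_zero]
    exact e3
  have hw3 : lin l * mo K 0 2 4 ∈ I.1 :=
    mem_of_mPow7 h (mul_mem_mPow (i := 1) (j := 6) (by omega) (lin_mem l)
      (mo_mem_mPow (by omega)))
  have hfin : ∑ β ∈ ({e 0 1 4, e 0 2 3, e 0 2 4} : Finset (Fin 3 →₀ ℕ)),
      d β • monomial β (1 : K) = d (e 0 1 4) • mo K 0 1 4 + (d (e 0 2 3) • mo K 0 2 3 +
        d (e 0 2 4) • mo K 0 2 4) := by
    rw [Finset.sum_insert (by simp [e_inj]), Finset.sum_insert (by simp [e_inj]),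
      Finset.sum_singleton]
  rw [hfin] at hd
  have h6 := I.1.mul_mem_left (lin l) hd
  have h7 : lin l * u = lin l * (u - (d (e 0 1 4) • mo K 0 1 4 + (d (e 0 2 3) • mo K 0 2 3 +
        d (e 0 2 4) • mo K 0 2 4))) + (d (e 0 1 4) • (lin l * mo K 0 1 4) +
        (d (e 0 2 3) • (lin l * mo K 0 2 3) + d (e 0 2 4) • (lin l * mo K 0 2 4))) := by
    simp only [mul_sub, mul_add, mul_smul_comm]
    ring
  rw [h7]
  exact add_mem h6 (add_mem (smul_mem' _ _ hw1) (add_mem (smul_mem' _ _ hw2) (smul_mem' _ _ hw3)))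

lemma lin_mul_mo (l : Fin 3 → K) (a b c : ℕ) : lin l * mo K a b c =
    l 0 • mo K (1 + a) (0 + b) (0 + c) + l 1 • mo K (0 + a) (1 + b) (0 + c) +
      l 2 • mo K (0 + a) (0 + b) (1 + c) := by
  simp only [lin, add_mul, smul_mul_assoc, mo_mul]

include h in
/-- For `M` in a hyperplane, `ℓ M ∈ I + m ^ 3`. -/
lemma exists_plane (hP : ∀ c, IsCoord B2 I c → MvPolynomial.eval (fun p => c p.1 p.2) (P2 K) ≠ 0)
    {l : Fin 3 → K} (hl : ∀ u ∈ mPow K 5, lin l * u ∈ I.1) :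
    ∃ A : Fin 3 → K, ∀ M : Fin 3 → K, M 0 * A 0 + M 1 * A 1 + M 2 * A 2 = 0 →
      lin l * lin M ∈ I.1 ⊔ mPow K 3 := by
  classical
  obtain ⟨c, hc⟩ := exists_coord h
  have hPc := hP c hc
  rw [eval_P2] at hPc
  have hmon : ∀ a b c' : ℕ, a + b + c' = 1 → lin l * mo K a b c' ∈ I.1 ⊔ mPow K 2 :=
    fun a b c' habc => Ideal.mem_sup_right (mul_mem_mPow (i := 1) (j := 1) (by omega) (lin_mem l)
      (mo_mem_mPow (by omega)))
  obtain ⟨d0, hd0⟩ := chart_pow h 2 (card2 (by omega)) (hmon 1 0 0 rfl)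
  obtain ⟨d1, hd1⟩ := chart_pow h 2 (card2 (by omega)) (hmon 0 1 0 rfl)
  obtain ⟨d2, hd2⟩ := chart_pow h 2 (card2 (by omega)) (hmon 0 0 1 rfl)
  refine ⟨![d0 (e 2 0 0), d1 (e 2 0 0), d2 (e 2 0 0)], fun M hM => ?_⟩
  simp only [Matrix.cons_val_zero, Matrix.cons_val_one, Matrix.cons_val] at hM
  set D : (Fin 3 →₀ ℕ) → K := fun β => M 0 * d0 β + M 1 * d1 β + M 2 * d2 β with hD
  have hDx : D (e 2 0 0) = 0 := hM
  have hDI : lin l * lin M - ∑ β ∈ B2.filter (fun β => 2 ≤ β.degree), D β • monomial β (1 : K) ∈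
      I.1 := by
    have e3 := add_mem (add_mem (smul_mem' I.1 (M 0) hd0) (smul_mem' I.1 (M 1) hd1))
      (smul_mem' I.1 (M 2) hd2)
    have e4 : lin l * lin M - ∑ β ∈ B2.filter (fun β => 2 ≤ β.degree),
        D β • monomial β (1 : K) =
        M 0 • (lin l * mo K 1 0 0 - ∑ β ∈ B2.filter (fun β => 2 ≤ β.degree),
          d0 β • monomial β (1 : K)) +
        M 1 • (lin l * mo K 0 1 0 - ∑ β ∈ B2.filter (fun β => 2 ≤ β.degree),
          d1 β • monomial β (1 : K)) +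
        M 2 • (lin l * mo K 0 0 1 - ∑ β ∈ B2.filter (fun β => 2 ≤ β.degree),
          d2 β • monomial β (1 : K)) := by
      have e5 : ∑ β ∈ B2.filter (fun β => 2 ≤ β.degree), D β • monomial β (1 : K) =
          M 0 • (∑ β ∈ B2.filter (fun β => 2 ≤ β.degree), d0 β • monomial β (1 : K)) +
          M 1 • (∑ β ∈ B2.filter (fun β => 2 ≤ β.degree), d1 β • monomial β (1 : K)) +
          M 2 • (∑ β ∈ B2.filter (fun β => 2 ≤ β.degree), d2 β • monomial β (1 : K)) := by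
        rw [Finset.smul_sum, Finset.smul_sum, Finset.smul_sum, ← Finset.sum_add_distrib,
          ← Finset.sum_add_distrib]
        refine Finset.sum_congr rfl (fun β _ => ?_)
        rw [hD]; module
      have e6 : lin l * lin M = M 0 • (lin l * mo K 1 0 0) + M 1 • (lin l * mo K 0 1 0) +
          M 2 • (lin l * mo K 0 0 1) := by
        conv_lhs => rw [lin.eq_def M]
        simp only [mul_add, mul_smul_comm]
      rw [e5, e6]; module
    rw [e4]; exact e3
  -- the three elements of degree 2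
  set Y : Finset (Fin 3 →₀ ℕ) := {e 0 2 0, e 0 1 1, e 0 0 2} with hY
  have hYs : Y ⊆ B2.filter (fun β => 2 ≤ β.degree) := by
    intro β hβ
    rw [hY, Finset.mem_insert, Finset.mem_insert, Finset.mem_singleton] at hβ
    rw [Finset.mem_filter]
    rcases hβ with rfl | rfl | rfl
    · exact ⟨(E_mem_B2 (t := (0, 2, 0))).mpr (by decide), by rw [e_degree]⟩
    · exact ⟨(E_mem_B2 (t := (0, 1, 1))).mpr (by decide), by rw [e_degree]⟩
    · exact ⟨(E_mem_B2 (t := (0, 0, 2))).mpr (by decide), by rw [e_degree]⟩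
  have hrest : ∀ β ∈ B2.filter (fun β => 2 ≤ β.degree) \ Y, D β = 0 ∨ 3 ≤ β.degree := by
    intro β hβ
    rw [Finset.mem_sdiff, Finset.mem_filter, mem_B2] at hβ
    obtain ⟨⟨⟨t, ht, rfl⟩, h2⟩, h3⟩ := hβ
    rw [E, e_degree] at h2
    by_cases h4 : 3 ≤ t.1 + t.2.1 + t.2.2
    · right; rw [E, e_degree]; exact h4
    · left
      have key : ∀ t ∈ L2, 2 ≤ t.1 + t.2.1 + t.2.2 → ¬ 3 ≤ t.1 + t.2.1 + t.2.2 →
        t = (0, 2, 0) ∨ t = (0, 1, 1) ∨ t = (0, 0, 2) ∨ t = (2, 0, 0) := by decide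
      rcases key t ht h2 h4 with rfl | rfl | rfl | rfl
      · exact absurd (by rw [hY]; simp [E]) h3
      · exact absurd (by rw [hY]; simp [E]) h3
      · exact absurd (by rw [hY]; simp [E]) h3
      · exact hDx
  have hsplit : ∑ β ∈ B2.filter (fun β => 2 ≤ β.degree), D β • monomial β (1 : K) =
      ∑ β ∈ B2.filter (fun β => 2 ≤ β.degree) \ Y, D β • monomial β (1 : K) +
      ∑ p : Fin 3, D (e 0 (2 - p.1) p.1) • mo K 0 (2 - p.1) p.1 := by
    rw [← Finset.sum_sdiff hYs]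
    congr 1
    rw [hY, Finset.sum_insert (by simp [e_inj]), Finset.sum_insert (by simp [e_inj]),
      Finset.sum_singleton, Fin.sum_univ_three, add_assoc]
    rfl
  have hR3 : ∑ β ∈ B2.filter (fun β => 2 ≤ β.degree) \ Y, D β • monomial β (1 : K) ∈ mPow K 3 := by
    refine Submodule.sum_mem _ (fun β hβ => ?_)
    rcases hrest β hβ with h0 | h0
    · rw [h0, zero_smul]; exact (mPow K 3).zero_mem
    · exact smul_mem' _ _ (mono_mem_mPow h0)
  rw [hsplit] at hDI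
  -- the coefficients on `Y` vanish
  have hzero : (fun p : Fin 3 => D (e 0 (2 - p.1) p.1)) = 0 := by
    by_contra hne
    apply hPc
    refine Matrix.exists_vecMul_eq_zero_iff.mp ⟨_, hne, ?_⟩
    ext q
    rw [Pi.zero_apply]
    simp only [Matrix.vecMul, dotProduct, Matrix.of_apply]
    have hq : q.1 ≤ 2 := by omega
    have e1 : lin l * lin M * mo K 0 q.1 (4 - q.1) ∈ I.1 := by
      rw [mul_assoc]
      exact hl _ (mul_mem_mPow (i := 1) (j := 4) (by omega) (lin_mem M)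
        (mo_mem_mPow (by omega)))
    have e2 := I.1.mul_mem_right (mo K 0 q.1 (4 - q.1)) hDI
    have e3 : (∑ β ∈ B2.filter (fun β => 2 ≤ β.degree) \ Y, D β • monomial β (1 : K)) *
        mo K 0 q.1 (4 - q.1) ∈ I.1 :=
      mem_of_mPow7 h (mul_mem_mPow (i := 3) (j := 4) (by omega) hR3 (mo_mem_mPow (by omega)))
    have e4 : (∑ p : Fin 3, D (e 0 (2 - p.1) p.1) • mo K 0 (2 - p.1) p.1) *
        mo K 0 q.1 (4 - q.1) ∈ I.1 := by
      have e5 := I.1.sub_mem (I.1.sub_mem e1 e2) e3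
      have e6 : lin l * lin M * mo K 0 q.1 (4 - q.1) -
          (lin l * lin M - (∑ β ∈ B2.filter (fun β => 2 ≤ β.degree) \ Y,
            D β • monomial β (1 : K) + ∑ p : Fin 3, D (e 0 (2 - p.1) p.1) •
              mo K 0 (2 - p.1) p.1)) * mo K 0 q.1 (4 - q.1) -
          (∑ β ∈ B2.filter (fun β => 2 ≤ β.degree) \ Y, D β • monomial β (1 : K)) *
            mo K 0 q.1 (4 - q.1) =
          (∑ p : Fin 3, D (e 0 (2 - p.1) p.1) • mo K 0 (2 - p.1) p.1) *
            mo K 0 q.1 (4 - q.1) := by ring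
      rwa [e6] at e5
    have e7 : (∑ p : Fin 3, D (e 0 (2 - p.1) p.1) • mo K 0 (2 - p.1) p.1) *
        mo K 0 q.1 (4 - q.1) - (∑ p : Fin 3, D (e 0 (2 - p.1) p.1) *
          c (e 0 (2 - p.1 + q.1) (p.1 + (4 - q.1))) (e 0 2 4)) •
            monomial (e 0 2 4) (1 : K) ∈ I.1 := by
      rw [Finset.sum_mul, Finset.sum_smul, ← Finset.sum_sub_distrib]
      refine Submodule.sum_mem _ (fun p _ => ?_)
      have hp : p.1 ≤ 2 := by omega
      rw [smul_mul_assoc, mo_mul, ← smul_smul, ← smul_sub]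
      exact smul_mem' _ _ (coord6 h hc (by rw [e_degree]; omega))
    have e8 := I.1.sub_mem e4 e7
    rw [sub_sub_cancel] at e8
    exact smul_mono_mem I e8 (top_notMem h)
  have hsum0 : ∑ p : Fin 3, D (e 0 (2 - p.1) p.1) • mo K 0 (2 - p.1) p.1 = 0 := by
    refine Finset.sum_eq_zero (fun p _ => ?_)
    have := congrFun hzero p
    simp only [Pi.zero_apply] at this
    rw [this, zero_smul]
  rw [hsum0, add_zero] at hDI
  have := add_mem (Ideal.mem_sup_left hDI : _ ∈ I.1 ⊔ mPow K 3) (Ideal.mem_sup_right hR3)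
  rwa [sub_add_cancel] at this

end chart2

end Pool.Agent.R832.CI
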