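import Pool.Agent.R832.CI.Disjoint2

set_option autoImplicit false

open MvPowerSeries

namespace Pool.Agent.R832.CI

variable {K : Type*} [Field K]

lemma lin_mul_lin (l M : Fin 3 → K) : lin l * lin M =
    (l 0 * M 0) • mo K 2 0 0 + (l 0 * M 1 + l 1 * M 0) • mo K 1 1 0 +
      (l 0 * M 2 + l 2 * M 0) • mo K 1 0 1 + (l 1 * M 1) • mo K 0 2 0 +
      (l 1 * M 2 + l 2 * M 1) • mo K 0 1 1 + (l 2 * M 2) • mo K 0 0 2 := by
  simp only [lin, add_mul, mul_add, smul_mul_assoc, mul_smul_comm, mo_mul]
  module

open Classical in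
lemma sum_ite_mono {B : Finset (Fin 3 →₀ ℕ)} {γ : Fin 3 →₀ ℕ} (hγ : γ ∈ B) (r : K) :
    ∑ β ∈ B, (if β = γ then r else 0) • monomial β (1 : K) = r • monomial γ (1 : K) := by
  rw [Finset.sum_eq_single γ]
  · rw [if_pos rfl]
  · intro b _ hb
    rw [if_neg hb, zero_smul]
  · intro hb; exact absurd hγ hb

/-- The two open sets are disjoint. -/
theorem disjoint_opens (I : CI K T0) (h1 : I ∈ principalOpen T0 B1 (P1 K))
    (h2 : I ∈ principalOpen T0 B2 (P2 K)) : False := by
  classical
  obtain ⟨l, hl0, hl5⟩ := exists_lin h2.1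
  obtain ⟨A, hA⟩ := exists_plane h2.1 h2.2 hl5
  obtain ⟨M, hM0, hMA, hMst⟩ := exists_ne A ![l 2, l 1, l 0]
  simp only [Matrix.cons_val_zero, Matrix.cons_val_one, Matrix.cons_val] at hMst
  have hLM := hA M hMA
  obtain ⟨c, hc⟩ := exists_coord h1.1
  have hP := h1.2 c hc
  have hy := (isCoord_iff.mp hc).1 (e 0 2 0)
  have hxz := (isCoord_iff.mp hc).1 (e 1 0 1)
  set s := l 1 * M 1 with hs
  set t := l 0 * M 2 + l 2 * M 0 with ht
  have hst : s = -t := by rw [hs, ht]; linear_combination hMst
  set g : (Fin 3 →₀ ℕ) → K := fun β =>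
    (if β = e 2 0 0 then l 0 * M 0 else 0) + (if β = e 1 1 0 then l 0 * M 1 + l 1 * M 0 else 0) +
    (if β = e 0 1 1 then l 1 * M 2 + l 2 * M 1 else 0) + (if β = e 0 0 2 then l 2 * M 2 else 0) +
    s * c (e 0 2 0) β + t * c (e 1 0 1) β with hg
  have hB200 : e 2 0 0 ∈ B1 := (E_mem_B1 (t := (2, 0, 0))).mpr (by decide)
  have hB110 : e 1 1 0 ∈ B1 := (E_mem_B1 (t := (1, 1, 0))).mpr (by decide)
  have hB011 : e 0 1 1 ∈ B1 := (E_mem_B1 (t := (0, 1, 1))).mpr (by decide)
  have hB002 : e 0 0 2 ∈ B1 := (E_mem_B1 (t := (0, 0, 2))).mpr (by decide)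
  have hsum : ∑ β ∈ B1, g β • monomial β (1 : K) = lin l * lin M -
      s • (monomial (e 0 2 0) (1 : K) - ∑ β ∈ B1, c (e 0 2 0) β • monomial β (1 : K)) -
      t • (monomial (e 1 0 1) (1 : K) - ∑ β ∈ B1, c (e 1 0 1) β • monomial β (1 : K)) := by
    have e1 : ∑ β ∈ B1, g β • monomial β (1 : K) =
        (l 0 * M 0) • monomial (e 2 0 0) (1 : K) +
        (l 0 * M 1 + l 1 * M 0) • monomial (e 1 1 0) (1 : K) +
        (l 1 * M 2 + l 2 * M 1) • monomial (e 0 1 1) (1 : K) +
        (l 2 * M 2) • monomial (e 0 0 2) (1 : K) +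
        s • ∑ β ∈ B1, c (e 0 2 0) β • monomial β (1 : K) +
        t • ∑ β ∈ B1, c (e 1 0 1) β • monomial β (1 : K) := by
      rw [← sum_ite_mono hB200, ← sum_ite_mono hB110, ← sum_ite_mono hB011,
        ← sum_ite_mono hB002, Finset.smul_sum, Finset.smul_sum, ← Finset.sum_add_distrib,
        ← Finset.sum_add_distrib, ← Finset.sum_add_distrib, ← Finset.sum_add_distrib,
        ← Finset.sum_add_distrib]
      refine Finset.sum_congr rfl (fun β _ => ?_)
      rw [hg]; module
    rw [e1, lin_mul_lin, ← hs, ← ht]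
    module
  have hmem : ∑ β ∈ B1, g β • monomial β (1 : K) ∈ I.1 ⊔ mPow K 3 := by
    rw [hsum]
    exact sub_mem (sub_mem hLM (Ideal.mem_sup_left (smul_mem' _ _ hy)))
      (Ideal.mem_sup_left (smul_mem' _ _ hxz))
  have hg0 := chart_pow_indep h1.1 3 (card1 (by omega)) g hmem
  have ga := hg0 _ hB200 (by rw [e_degree]; omega)
  have gd := hg0 _ hB110 (by rw [e_degree]; omega)
  have gf := hg0 _ hB011 (by rw [e_degree]; omega)
  have gc := hg0 _ hB002 (by rw [e_degree]; omega)
  simp [hg, e_inj] at ga gd gf gc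
  rw [hst] at ga gd gf gc
  by_cases ht0 : t = 0
  · -- then `ℓ M = 0`
    rw [ht0] at ga gd gf gc hst
    simp only [neg_zero, zero_mul, add_zero, mul_eq_zero] at ga gd gf gc
    rw [hs, neg_zero, mul_eq_zero] at hst
    rw [ht] at ht0
    have hcontra : l = 0 ∨ M = 0 := by
      by_cases l0 : l 0 = 0
      · by_cases l1 : l 1 = 0
        · by_cases l2 : l 2 = 0
          · left; ext i; fin_cases i
            · exact l0
            · exact l1
            · exact l2
          · right
            have m2 : M 2 = 0 := gc.resolve_left l2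
            rw [l0, m2] at ht0
            rw [l1, m2] at gf
            have m0 : M 0 = 0 := by
              have : l 2 * M 0 = 0 := by linear_combination ht0
              exact (mul_eq_zero.mp this).resolve_left l2
            have m1 : M 1 = 0 := by
              have : l 2 * M 1 = 0 := by linear_combination gf
              exact (mul_eq_zero.mp this).resolve_left l2
            ext i; fin_cases i
            · exact m0
            · exact m1
            · exact m2
        · right
          have m1 : M 1 = 0 := hst.resolve_left l1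
          rw [l0, m1] at gd
          rw [m1] at gf
          have m0 : M 0 = 0 := by
            have : l 1 * M 0 = 0 := by linear_combination gd
            exact (mul_eq_zero.mp this).resolve_left l1
          have m2 : M 2 = 0 := by
            have : l 1 * M 2 = 0 := by linear_combination gf
            exact (mul_eq_zero.mp this).resolve_left l1
          ext i; fin_cases i
          · exact m0
          · exact m1
          · exact m2
      · right
        have m0 : M 0 = 0 := ga.resolve_left l0
        rw [m0] at gd ht0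
        have m1 : M 1 = 0 := by
          have : l 0 * M 1 = 0 := by linear_combination gd
          exact (mul_eq_zero.mp this).resolve_left l0
        have m2 : M 2 = 0 := by
          have : l 0 * M 2 = 0 := by linear_combination ht0
          exact (mul_eq_zero.mp this).resolve_left l0
        ext i; fin_cases i
        · exact m0
        · exact m1
        · exact m2
    rcases hcontra with h | h
    · exact hl0 h
    · exact hM0 h
  · apply hP
    rw [eval_P1]
    set a := c (e 0 2 0) (e 2 0 0) - c (e 1 0 1) (e 2 0 0)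
    set cc := c (e 0 2 0) (e 0 0 2) - c (e 1 0 1) (e 0 0 2)
    set d := c (e 0 2 0) (e 1 1 0) - c (e 1 0 1) (e 1 1 0)
    set f := c (e 0 2 0) (e 0 1 1) - c (e 1 0 1) (e 0 1 1)
    have e1 : t * a = l 0 * M 0 := by simp only [a]; linear_combination -ga
    have e2 : t * d = l 0 * M 1 + l 1 * M 0 := by simp only [d]; linear_combination -gd
    have e3 : t * f = l 1 * M 2 + l 2 * M 1 := by simp only [f]; linear_combination -gf
    have e4 : t * cc = l 2 * M 2 := by simp only [cc]; linear_combination -gc
    have e5 : -t = l 1 * M 1 := by rw [← hst]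
    have e6 : t ^ 3 * (1 - 4 * a * cc + d * f - a * f ^ 2 - cc * d ^ 2) = 0 := by
      have e7 : t ^ 3 * (1 - 4 * a * cc + d * f - a * f ^ 2 - cc * d ^ 2) =
          4 * (t * a) * (-t) * (t * cc) + (t * d) * t * (t * f) - (t * a) * (t * f) ^ 2 -
            (-t) * t ^ 2 - (t * cc) * (t * d) ^ 2 := by ring
      rw [e7, e1, e2, e3, e4, e5, ht]
      ring
    exact (mul_eq_zero.mp e6).resolve_left (pow_ne_zero _ ht0)

end Pool.Agent.R832.CI
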