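import Pool.Agent.R832.CI.NF

set_option autoImplicit false

open MvPowerSeries

namespace Pool.Agent.R832.CI

variable {K : Type*} [Field K]

lemma e_mem_B1 {a b c : ℕ} : e a b c ∈ B1 ↔ (a, b, c) ∈ L1 := E_mem_B1 (t := (a, b, c))
lemma e_mem_B2 {a b c : ℕ} : e a b c ∈ B2 ↔ (a, b, c) ∈ L2 := E_mem_B2 (t := (a, b, c))

lemma e_eq_e {a b c a' b' c' : ℕ} : e a b c = e a' b' c' ↔ (a, b, c) = (a', b', c') := by
  rw [e_inj]; simp

/-- `I_1 = (x z, y^2, x^4 + z^5)`. -/
noncomputable def I1 (K : Type*) [Field K] : Ideal (MvPowerSeries (Fin 3) K) :=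
  Ideal.span {mo K 1 0 1, mo K 0 2 0, mo K 4 0 0 + mo K 0 0 5}

/-- The functionals of the normal form for `I_1`. -/
noncomputable def Lam1 (K : Type*) [Field K] (β : Fin 3 →₀ ℕ) :
    MvPowerSeries (Fin 3) K →ₗ[K] K :=
  coeff β - if β 2 = 5 then coeff (e 4 (β 1) 0) else 0

lemma Lam1_apply (a b c : ℕ) (f : MvPowerSeries (Fin 3) K) :
    Lam1 K (e a b c) f = coeff (e a b c) f - if c = 5 then coeff (e 4 b 0) f else 0 := by
  rw [Lam1, e_two', e_one']
  split_ifs <;> simp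

lemma L1_prop : ∀ t ∈ L1, t.2.1 ≤ 1 ∧ (t.1 = 0 ∧ t.2.2 ≤ 5 ∨ t.1 ≤ 3 ∧ t.2.2 = 0) := by decide

lemma B1_prop {β : Fin 3 →₀ ℕ} (hβ : β ∈ B1) : ∃ a b c, β = e a b c ∧
    b ≤ 1 ∧ (a = 0 ∧ c ≤ 5 ∨ a ≤ 3 ∧ c = 0) := by
  obtain ⟨t, ht, rfl⟩ := mem_B1.mp hβ
  exact ⟨_, _, _, rfl, L1_prop t ht⟩

lemma mem_I1_g1 : mo K 1 0 1 ∈ I1 K := Ideal.subset_span (by simp)
lemma mem_I1_g2 : mo K 0 2 0 ∈ I1 K := Ideal.subset_span (by simp)
lemma mem_I1_g3 : mo K 4 0 0 + mo K 0 0 5 ∈ I1 K := Ideal.subset_span (by simp)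

lemma mem_I1_x5 : mo K 5 0 0 ∈ I1 K := by
  have h1 := (I1 K).mul_mem_left (mo K 1 0 0) mem_I1_g3
  have h2 := (I1 K).mul_mem_left (mo K 0 0 4) mem_I1_g1
  rw [mul_add, mo_mul, mo_mul] at h1
  rw [mo_mul] at h2
  have h3 := sub_mem h1 h2
  rwa [add_sub_cancel_right] at h3

lemma mem_I1_z6 : mo K 0 0 6 ∈ I1 K := by
  have h1 := (I1 K).mul_mem_left (mo K 0 0 1) mem_I1_g3
  have h2 := (I1 K).mul_mem_left (mo K 3 0 0) mem_I1_g1
  rw [mul_add, mo_mul, mo_mul] at h1
  rw [mo_mul] at h2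
  have h3 := sub_mem h1 h2
  rwa [add_comm, add_sub_cancel_right] at h3

lemma NF1 : NF (I1 K) B1 (Lam1 K) where
  vanish := by
    intro f hf β hβ
    obtain ⟨a, b, c, rfl, hb, hac⟩ := B1_prop hβ
    rw [I1, Submodule.mem_span_triple] at hf
    obtain ⟨r, s, t, rfl⟩ := hf
    rw [map_add, map_add]
    have e1 : Lam1 K (e a b c) (r • mo K 1 0 1) = 0 := by
      have q1 : coeff (e a b c) (mo K 1 0 1 * r) = 0 := by rw [coeff_mo_mul, if_neg (by omega)]
      have q2 : coeff (e 4 b 0) (mo K 1 0 1 * r) = 0 := by rw [coeff_mo_mul, if_neg (by omega)]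
      rw [smul_eq_mul, mul_comm, Lam1_apply, q1, q2]
      simp
    have e2 : Lam1 K (e a b c) (s • mo K 0 2 0) = 0 := by
      have q1 : coeff (e a b c) (mo K 0 2 0 * s) = 0 := by rw [coeff_mo_mul, if_neg (by omega)]
      have q2 : coeff (e 4 b 0) (mo K 0 2 0 * s) = 0 := by rw [coeff_mo_mul, if_neg (by omega)]
      rw [smul_eq_mul, mul_comm, Lam1_apply, q1, q2]
      simp
    have e3 : Lam1 K (e a b c) (t • (mo K 4 0 0 + mo K 0 0 5)) = 0 := by
      rw [smul_eq_mul, mul_comm, add_mul, Lam1_apply, map_add, map_add, coeff_mo_mul, coeff_mo_mul,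
        coeff_mo_mul, coeff_mo_mul, if_neg (by omega)]
      by_cases hc : c = 5
      · subst hc
        have ha : a = 0 := by omega
        subst ha
        simp
      · rw [if_neg hc, if_neg (by omega)]; simp
    rw [e1, e2, e3]; simp
  red := by
    intro f
    set h := f - ∑ β ∈ B1, Lam1 K β f • monomial β (1 : K) -
      (coeff (e 4 0 0) f • (mo K 4 0 0 + mo K 0 0 5) +
        coeff (e 4 1 0) f • (mo K 4 1 0 + mo K 0 1 5)) with hh
    have h1 : h ∈ I1 K := by
      apply mem_of_support (I1 K) [e 0 2 0, e 1 0 1, e 5 0 0, e 0 0 6]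
      · intro n hn
        simp only [List.mem_cons, List.not_mem_nil, or_false] at hn
        rcases hn with rfl | rfl | rfl | rfl
        · exact mem_I1_g2
        · exact mem_I1_g1
        · exact mem_I1_x5
        · exact mem_I1_z6
      · intro m hm
        obtain ⟨a, b, c, rfl⟩ := exists_e m
        have g1 := hm (e 0 2 0) (by simp)
        have g2 := hm (e 1 0 1) (by simp)
        have g3 := hm (e 5 0 0) (by simp)
        have g4 := hm (e 0 0 6) (by simp)
        rw [e_le] at g1 g2 g3 g4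
        have ha : a ≤ 4 := by omega
        have hb : b ≤ 1 := by omega
        have hc : c ≤ 5 := by omega
        rw [hh, map_sub, map_sub, coeff_sum_mono, map_add, coeff_smul, coeff_smul, map_add,
          map_add, coeff_mo, coeff_mo, coeff_mo, coeff_mo, Lam1_apply]
        simp only [e_mem_B1]
        clear_value h
        clear hh hm
        interval_cases a <;> interval_cases b <;> interval_cases c <;>
          first
          | omega
          | (simp [L1])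
    have h2 : coeff (e 4 0 0) f • (mo K 4 0 0 + mo K 0 0 5) +
        coeff (e 4 1 0) f • (mo K 4 1 0 + mo K 0 1 5) ∈ I1 K := by
      refine add_mem (smul_mem' _ _ mem_I1_g3) (smul_mem' _ _ ?_)
      have := (I1 K).mul_mem_left (mo K 0 1 0) mem_I1_g3
      rwa [mul_add, mo_mul, mo_mul] at this
    have h3 := add_mem h1 h2
    rwa [hh, sub_add_cancel] at h3
  dual := by
    intro β hβ γ hγ hne
    obtain ⟨a, b, c, rfl, hb, hac⟩ := B1_prop hβ
    obtain ⟨a', b', c', rfl, hb', hac'⟩ := B1_prop hγ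
    rw [Ne, e_inj] at hne
    have h1 := coeff_mo (K := K) a b c a' b' c'
    have h2 := coeff_mo (K := K) 4 b 0 a' b' c'
    rw [if_neg hne] at h1
    rw [if_neg (by omega)] at h2
    rw [Lam1_apply, h1, h2]; simp
  self := by
    intro β hβ
    obtain ⟨a, b, c, rfl, hb, hac⟩ := B1_prop hβ
    have h1 := coeff_mo (K := K) a b c a b c
    have h2 := coeff_mo (K := K) 4 b 0 a b c
    rw [if_pos (by simp)] at h1
    rw [if_neg (by omega)] at h2
    rw [Lam1_apply, h1, h2]; simp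
  deg := by
    intro β hβ i hi f hf
    obtain ⟨a, b, c, rfl, hb, hac⟩ := B1_prop hβ
    rw [e_degree] at hi
    rw [Lam1_apply, coeff_eq_zero_of_mem_mPow hf (by rw [e_degree]; omega)]
    by_cases hc : c = 5
    · rw [if_pos hc, coeff_eq_zero_of_mem_mPow hf (by rw [e_degree]; omega), sub_zero]
    · rw [if_neg hc, sub_zero]

lemma filter_lt_map_E (L : Finset (ℕ × ℕ × ℕ)) (i : ℕ) :
    (L.map ⟨E, E_inj⟩).filter (fun β => β.degree < i) =
      (L.filter (fun t => t.1 + t.2.1 + t.2.2 < i)).map ⟨E, E_inj⟩ := by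
  rw [Finset.filter_map]
  congr 1
  apply Finset.filter_congr
  intro t _
  simp only [Function.comp, Function.Embedding.coeFn_mk, E, e_degree]

lemma card_L (L : Finset (ℕ × ℕ × ℕ)) (hL : ∀ t ∈ L, t.1 + t.2.1 + t.2.2 < 7)
    (hL2 : ∀ i < 7, (L.filter (fun t => t.1 + t.2.1 + t.2.2 < i + 1)).card =
      (L.filter (fun t => t.1 + t.2.1 + t.2.2 < i)).card + T0 i) (i : ℕ) :
    ((L.map ⟨E, E_inj⟩).filter (fun β => β.degree < i + 1)).card =
      ((L.map ⟨E, E_inj⟩).filter (fun β => β.degree < i)).card + T0 i := by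
  rw [filter_lt_map_E, filter_lt_map_E, Finset.card_map, Finset.card_map]
  by_cases hi : i < 7
  · exact hL2 i hi
  · have h0 : T0 i = 0 := by
      rw [T0, List.getD_eq_default]
      simpa using hi
    rw [h0, add_zero]
    congr 1
    apply Finset.filter_congr
    intro t ht
    have := hL t ht
    constructor <;> intro _ <;> omega

lemma isCI_I1 : IsCI T0 (I1 K) := by
  refine ⟨⟨_, _, _, rfl⟩, fun i => ?_⟩
  rw [NF1.finrank, NF1.finrank]
  exact card_L L1 (by decide) (by decide) i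

/-- `I_1` as a point of `CI(T)`. -/
noncomputable def pt1 (K : Type*) [Field K] : CI K T0 := ⟨I1 K, isCI_I1⟩

lemma pt1_mem : pt1 K ∈ principalOpen T0 B1 (P1 K) := by
  refine ⟨NF1.inChart isCI_I1, fun c hc => ?_⟩
  have h1 : ∀ β ∈ B1, c (e 0 2 0) β = 0 := fun β hβ => by
    rw [NF1.coord isCI_I1 hc _ hβ]
    exact NF1.vanish _ mem_I1_g2 _ hβ
  have h2 : ∀ β ∈ B1, c (e 1 0 1) β = 0 := fun β hβ => by
    rw [NF1.coord isCI_I1 hc _ hβ]
    exact NF1.vanish _ mem_I1_g1 _ hβ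
  have hB200 : e 2 0 0 ∈ B1 := e_mem_B1.mpr (by decide)
  have hB110 : e 1 1 0 ∈ B1 := e_mem_B1.mpr (by decide)
  have hB011 : e 0 1 1 ∈ B1 := e_mem_B1.mpr (by decide)
  have hB002 : e 0 0 2 ∈ B1 := e_mem_B1.mpr (by decide)
  rw [eval_P1, h1 _ hB200, h1 _ hB110, h1 _ hB011, h1 _ hB002, h2 _ hB200, h2 _ hB110,
    h2 _ hB011, h2 _ hB002]
  simp

end Pool.Agent.R832.CI
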