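import Pool.Agent.R832.CI.Ex1

set_option autoImplicit false

open MvPowerSeries

namespace Pool.Agent.R832.CI

variable {K : Type*} [Field K]

/-- `I_2 = (x y - z^4, x z, x^3 - y^3)`. -/
noncomputable def I2 (K : Type*) [Field K] : Ideal (MvPowerSeries (Fin 3) K) :=
  Ideal.span {mo K 1 1 0 - mo K 0 0 4, mo K 1 0 1, mo K 3 0 0 - mo K 0 3 0}

/-- The functionals of the normal form for `I_2`. -/
noncomputable def Lam2 (K : Type*) [Field K] (β : Fin 3 →₀ ℕ) :
    MvPowerSeries (Fin 3) K →ₗ[K] K :=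
  coeff β + (if β 2 = 4 then coeff (e 1 (β 1 + 1) 0) else 0) +
    (if β 1 = 2 ∧ β 2 = 4 then coeff (e 4 0 0) else 0) +
    (if β 0 = 3 then coeff (e 0 3 0) else 0)

lemma Lam2_apply (a b c : ℕ) (f : MvPowerSeries (Fin 3) K) :
    Lam2 K (e a b c) f = coeff (e a b c) f + (if c = 4 then coeff (e 1 (b + 1) 0) f else 0) +
      (if b = 2 ∧ c = 4 then coeff (e 4 0 0) f else 0) +
      (if a = 3 then coeff (e 0 3 0) f else 0) := by
  rw [Lam2, e_two', e_one', e_zero']
  split_ifs <;> simp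

lemma L2_prop : ∀ t ∈ L2, (t.1 = 0 ∧ t.2.1 ≤ 2 ∧ t.2.2 ≤ 4) ∨
    (1 ≤ t.1 ∧ t.1 ≤ 3 ∧ t.2.1 = 0 ∧ t.2.2 = 0) := by decide

lemma B2_prop {β : Fin 3 →₀ ℕ} (hβ : β ∈ B2) : ∃ a b c, β = e a b c ∧
    ((a = 0 ∧ b ≤ 2 ∧ c ≤ 4) ∨ (1 ≤ a ∧ a ≤ 3 ∧ b = 0 ∧ c = 0)) := by
  obtain ⟨t, ht, rfl⟩ := mem_B2.mp hβ
  exact ⟨_, _, _, rfl, L2_prop t ht⟩

lemma mem_I2_g1 : mo K 1 1 0 - mo K 0 0 4 ∈ I2 K := Ideal.subset_span (by simp)
lemma mem_I2_g2 : mo K 1 0 1 ∈ I2 K := Ideal.subset_span (by simp)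
lemma mem_I2_g3 : mo K 3 0 0 - mo K 0 3 0 ∈ I2 K := Ideal.subset_span (by simp)

lemma mem_I2_x2y : mo K 2 1 0 ∈ I2 K := by
  have h1 := (I2 K).mul_mem_left (mo K 1 0 0) mem_I2_g1
  have h2 := (I2 K).mul_mem_left (mo K 0 0 3) mem_I2_g2
  rw [mul_sub, mo_mul, mo_mul] at h1
  rw [mo_mul] at h2
  have h3 := add_mem h1 h2
  rwa [sub_add_cancel] at h3

lemma mem_I2_z5 : mo K 0 0 5 ∈ I2 K := by
  have h1 := (I2 K).mul_mem_left (mo K 0 0 1) mem_I2_g1
  have h2 := (I2 K).mul_mem_left (mo K 0 1 0) mem_I2_g2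
  rw [mul_sub, mo_mul, mo_mul] at h1
  rw [mo_mul] at h2
  have h3 := sub_mem h2 h1
  rwa [sub_sub_cancel] at h3

lemma mem_I2_y3z : mo K 0 3 1 ∈ I2 K := by
  have h1 := (I2 K).mul_mem_left (mo K 0 0 1) mem_I2_g3
  have h2 := (I2 K).mul_mem_left (mo K 2 0 0) mem_I2_g2
  rw [mul_sub, mo_mul, mo_mul] at h1
  rw [mo_mul] at h2
  have h3 := sub_mem h2 h1
  rwa [sub_sub_cancel] at h3

lemma mem_I2_y4 : mo K 0 4 0 ∈ I2 K := by
  have h1 := (I2 K).mul_mem_left (mo K 0 1 0) mem_I2_g3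
  have h2 := (I2 K).mul_mem_left (mo K 1 0 0) mem_I2_x2y
  rw [mul_sub, mo_mul, mo_mul] at h1
  rw [mo_mul] at h2
  have h3 := sub_mem h2 h1
  rwa [sub_sub_cancel] at h3

lemma mem_I2_x5 : mo K 5 0 0 ∈ I2 K := by
  have h1 := (I2 K).mul_mem_left (mo K 2 0 0) mem_I2_g3
  have h2 := (I2 K).mul_mem_left (mo K 0 2 0) mem_I2_x2y
  rw [mul_sub, mo_mul, mo_mul] at h1
  rw [mo_mul] at h2
  have h3 := add_mem h1 h2
  rwa [sub_add_cancel] at h3

lemma NF2 : NF (I2 K) B2 (Lam2 K) where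
  vanish := by
    intro f hf β hβ
    obtain ⟨a, b, c, rfl, hab⟩ := B2_prop hβ
    rw [I2, Submodule.mem_span_triple] at hf
    obtain ⟨r, s, t, rfl⟩ := hf
    rw [map_add, map_add]
    have e1 : Lam2 K (e a b c) (r • (mo K 1 1 0 - mo K 0 0 4)) = 0 := by
      rw [smul_eq_mul, mul_comm, sub_mul, Lam2_apply]
      simp only [map_sub, coeff_mo_mul]
      rcases hab with ⟨rfl, hb, hc⟩ | ⟨ha1, ha3, rfl, rfl⟩
      · by_cases h4 : c = 4
        · subst h4; simp
        · have : ¬ 4 ≤ c := by omega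
          simp [h4, this]
      · simp
    have e2 : Lam2 K (e a b c) (s • mo K 1 0 1) = 0 := by
      rw [smul_eq_mul, mul_comm, Lam2_apply]
      simp only [coeff_mo_mul]
      rcases hab with ⟨rfl, hb, hc⟩ | ⟨ha1, ha3, rfl, rfl⟩ <;> simp
    have e3 : Lam2 K (e a b c) (t • (mo K 3 0 0 - mo K 0 3 0)) = 0 := by
      rw [smul_eq_mul, mul_comm, sub_mul, Lam2_apply]
      simp only [map_sub, coeff_mo_mul]
      rcases hab with ⟨rfl, hb, hc⟩ | ⟨ha1, ha3, rfl, rfl⟩
      · by_cases h4 : c = 4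
        · subst h4
          interval_cases b <;> simp
        · have : ¬ 3 ≤ b := by omega
          simp [h4, this]
      · interval_cases a <;> simp
    rw [e1, e2, e3]; simp
  red := by
    intro f
    set h := f - ∑ β ∈ B2, Lam2 K β f • monomial β (1 : K) -
      (coeff (e 0 3 0) f • (mo K 0 3 0 - mo K 3 0 0) +
        coeff (e 1 1 0) f • (mo K 1 1 0 - mo K 0 0 4) +
        coeff (e 1 2 0) f • (mo K 1 2 0 - mo K 0 1 4) +
        coeff (e 1 3 0) f • (mo K 1 3 0 - mo K 0 2 4) +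
        coeff (e 4 0 0) f • (mo K 4 0 0 - mo K 0 2 4)) with hh
    have h1 : h ∈ I2 K := by
      apply mem_of_support (I2 K) [e 1 0 1, e 2 1 0, e 0 3 1, e 0 4 0, e 0 0 5, e 5 0 0]
      · intro n hn
        simp only [List.mem_cons, List.not_mem_nil, or_false] at hn
        rcases hn with rfl | rfl | rfl | rfl | rfl | rfl
        · exact mem_I2_g2
        · exact mem_I2_x2y
        · exact mem_I2_y3z
        · exact mem_I2_y4
        · exact mem_I2_z5
        · exact mem_I2_x5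
      · intro m hm
        obtain ⟨a, b, c, rfl⟩ := exists_e m
        have g1 := hm (e 1 0 1) (by simp)
        have g2 := hm (e 2 1 0) (by simp)
        have g3 := hm (e 0 3 1) (by simp)
        have g4 := hm (e 0 4 0) (by simp)
        have g5 := hm (e 0 0 5) (by simp)
        have g6 := hm (e 5 0 0) (by simp)
        rw [e_le] at g1 g2 g3 g4 g5 g6
        have ha : a ≤ 4 := by omega
        have hb : b ≤ 3 := by omega
        have hc : c ≤ 4 := by omega
        rw [hh, map_sub, map_sub, coeff_sum_mono]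
        simp only [map_add, coeff_smul, map_sub, coeff_mo, Lam2_apply, e_mem_B2]
        clear_value h
        clear hh hm
        interval_cases a <;> interval_cases b <;> interval_cases c <;>
          first
          | omega
          | (simp [L2]; done)
          | (simp [L2]; ring)
    have h2 : coeff (e 0 3 0) f • (mo K 0 3 0 - mo K 3 0 0) +
        coeff (e 1 1 0) f • (mo K 1 1 0 - mo K 0 0 4) +
        coeff (e 1 2 0) f • (mo K 1 2 0 - mo K 0 1 4) +
        coeff (e 1 3 0) f • (mo K 1 3 0 - mo K 0 2 4) +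
        coeff (e 4 0 0) f • (mo K 4 0 0 - mo K 0 2 4) ∈ I2 K := by
      refine add_mem (add_mem (add_mem (add_mem (smul_mem' _ _ ?_) (smul_mem' _ _ mem_I2_g1))
        (smul_mem' _ _ ?_)) (smul_mem' _ _ ?_)) (smul_mem' _ _ ?_)
      · have := neg_mem (mem_I2_g3 (K := K))
        rwa [neg_sub] at this
      · have := (I2 K).mul_mem_left (mo K 0 1 0) mem_I2_g1
        rwa [mul_sub, mo_mul, mo_mul] at this
      · have := (I2 K).mul_mem_left (mo K 0 2 0) mem_I2_g1
        rwa [mul_sub, mo_mul, mo_mul] at this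
      · have k1 := (I2 K).mul_mem_left (mo K 0 2 0) mem_I2_g1
        have k2 := (I2 K).mul_mem_left (mo K 1 0 0) mem_I2_g3
        rw [mul_sub, mo_mul, mo_mul] at k1 k2
        have k3 := add_mem k2 k1
        rwa [show mo K (1 + 3) (0 + 0) (0 + 0) - mo K (1 + 0) (0 + 3) (0 + 0) +
          (mo K (0 + 1) (2 + 1) (0 + 0) - mo K (0 + 0) (2 + 0) (0 + 4)) =
          mo K 4 0 0 - mo K 0 2 4 by simp] at k3
    have h3 := add_mem h1 h2
    rwa [hh, sub_add_cancel] at h3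
  dual := by
    intro β hβ γ hγ hne
    obtain ⟨a, b, c, rfl, hab⟩ := B2_prop hβ
    obtain ⟨a', b', c', rfl, hab'⟩ := B2_prop hγ
    rw [Ne, e_inj] at hne
    have h1 := coeff_mo (K := K) a b c a' b' c'
    have h2 := coeff_mo (K := K) 1 (b + 1) 0 a' b' c'
    have h3 := coeff_mo (K := K) 4 0 0 a' b' c'
    have h4 := coeff_mo (K := K) 0 3 0 a' b' c'
    rw [if_neg hne] at h1
    rw [if_neg (by omega)] at h2 h3 h4
    rw [Lam2_apply, h1, h2, h3, h4]; simp
  self := by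
    intro β hβ
    obtain ⟨a, b, c, rfl, hab⟩ := B2_prop hβ
    have h1 := coeff_mo (K := K) a b c a b c
    have h2 := coeff_mo (K := K) 1 (b + 1) 0 a b c
    have h3 := coeff_mo (K := K) 4 0 0 a b c
    have h4 := coeff_mo (K := K) 0 3 0 a b c
    rw [if_pos (by simp)] at h1
    rw [if_neg (by omega)] at h2 h3 h4
    rw [Lam2_apply, h1, h2, h3, h4]; simp
  deg := by
    intro β hβ i hi f hf
    obtain ⟨a, b, c, rfl, hab⟩ := B2_prop hβ
    rw [e_degree] at hi
    have q1 : coeff (e a b c) f = 0 := coeff_eq_zero_of_mem_mPow hf (by rw [e_degree]; omega)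
    have q2 : (if c = 4 then coeff (e 1 (b + 1) 0) f else 0) = 0 := by
      split_ifs with h
      · exact coeff_eq_zero_of_mem_mPow hf (by rw [e_degree]; omega)
      · rfl
    have q3 : (if b = 2 ∧ c = 4 then coeff (e 4 0 0) f else 0) = 0 := by
      split_ifs with h
      · exact coeff_eq_zero_of_mem_mPow hf (by rw [e_degree]; omega)
      · rfl
    have q4 : (if a = 3 then coeff (e 0 3 0) f else 0) = 0 := by
      split_ifs with h
      · exact coeff_eq_zero_of_mem_mPow hf (by rw [e_degree]; omega)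
      · rfl
    rw [Lam2_apply, q1, q2, q3, q4]; simp

lemma isCI_I2 : IsCI T0 (I2 K) := by
  refine ⟨⟨_, _, _, rfl⟩, fun i => ?_⟩
  rw [NF2.finrank, NF2.finrank]
  exact card_L L2 (by decide) (by decide) i

/-- `I_2` as a point of `CI(T)`. -/
noncomputable def pt2 (K : Type*) [Field K] : CI K T0 := ⟨I2 K, isCI_I2⟩

lemma pt2_mem : pt2 K ∈ principalOpen T0 B2 (P2 K) := by
  refine ⟨NF2.inChart isCI_I2, fun c hc => ?_⟩
  have htop : e 0 2 4 ∈ B2 := e_mem_B2.mpr (by decide)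
  have h1 : ∀ a b c', c (e a b c') (e 0 2 4) = Lam2 K (e 0 2 4) (mo K a b c') := fun a b c' =>
    NF2.coord isCI_I2 hc _ htop
  have h2 : (Matrix.of fun p q : Fin 3 =>
      c (e 0 (2 - p.1 + q.1) (p.1 + (4 - q.1))) (e 0 2 4)) = 1 := by
    ext p q
    rw [Matrix.of_apply, h1, Lam2_apply, coeff_mo, coeff_mo, coeff_mo, coeff_mo]
    fin_cases p <;> fin_cases q <;> simp
  rw [eval_P2, h2, Matrix.det_one]
  exact one_ne_zero

end Pool.Agent.R832.CI
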