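import Pool.Agent.R832.CI.Disjoint

set_option autoImplicit false

open MvPowerSeries

namespace Pool.Agent.R832.CI

variable {K : Type*} [Field K]

lemma exists_equiv {ι : Type*} (J : Ideal (MvPowerSeries (Fin 3) K))
    (Φ : MvPowerSeries (Fin 3) K →ₗ[K] (ι → K)) (hker : ∀ f, f ∈ J ↔ Φ f = 0)
    (hsurj : Function.Surjective Φ) :
    ∃ F : (MvPowerSeries (Fin 3) K ⧸ J) ≃ₗ[K] (ι → K), ∀ f, F (Ideal.Quotient.mk _ f) = Φ f := by
  have h1 : J.restrictScalars K = LinearMap.ker Φ := by
    ext f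
    rw [Submodule.restrictScalars_mem, LinearMap.mem_ker, hker]
  exact ⟨(Submodule.Quotient.restrictScalarsEquiv K J).symm.trans
    ((Submodule.quotEquivOfEq _ _ h1).trans (Φ.quotKerEquivOfSurjective hsurj)), fun f => rfl⟩

/-- A normal form for `R / I`. -/
structure NF (I : Ideal (MvPowerSeries (Fin 3) K)) (B : Finset (Fin 3 →₀ ℕ))
    (Λ : (Fin 3 →₀ ℕ) → (MvPowerSeries (Fin 3) K →ₗ[K] K)) : Prop where
  vanish : ∀ f ∈ I, ∀ β ∈ B, Λ β f = 0
  red : ∀ f, f - ∑ β ∈ B, Λ β f • monomial β (1 : K) ∈ I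
  dual : ∀ β ∈ B, ∀ γ ∈ B, β ≠ γ → Λ β (monomial γ (1 : K)) = 0
  self : ∀ β ∈ B, Λ β (monomial β (1 : K)) = 1
  deg : ∀ β ∈ B, ∀ i, β.degree < i → ∀ f ∈ mPow K i, Λ β f = 0

variable {I : Ideal (MvPowerSeries (Fin 3) K)} {B : Finset (Fin 3 →₀ ℕ)}
    {Λ : (Fin 3 →₀ ℕ) → (MvPowerSeries (Fin 3) K →ₗ[K] K)}

lemma NF.surj (h : NF I B Λ) (B' : Finset (Fin 3 →₀ ℕ)) (hB' : B' ⊆ B) :
    Function.Surjective (LinearMap.pi (fun b : B' => Λ b.1)) := by
  classical
  intro v
  refine ⟨∑ b : B', v b • monomial b.1 (1 : K), ?_⟩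
  rw [map_sum]
  ext b
  rw [Finset.sum_apply, Finset.sum_eq_single b]
  · rw [map_smul, Pi.smul_apply, LinearMap.pi_apply, h.self _ (hB' b.2), smul_eq_mul, mul_one]
  · intro c _ hc
    rw [map_smul, Pi.smul_apply, LinearMap.pi_apply,
      h.dual _ (hB' b.2) _ (hB' c.2) (fun hbc => hc (Subtype.ext hbc.symm)), smul_zero]
  · intro hb; exact absurd (Finset.mem_univ b) hb

lemma NF.finrank (h : NF I B Λ) (i : ℕ) :
    Module.finrank K (MvPowerSeries (Fin 3) K ⧸ (I ⊔ mPow K i)) =
      (B.filter (fun β => β.degree < i)).card := by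
  classical
  obtain ⟨F, -⟩ := exists_equiv (I ⊔ mPow K i)
    (LinearMap.pi (fun b : B.filter (fun β => β.degree < i) => Λ b.1)) (by
      intro f
      constructor
      · intro hf
        obtain ⟨u, hu, v, hv, rfl⟩ := Submodule.mem_sup.mp hf
        ext b
        have hb := Finset.mem_filter.mp b.2
        rw [map_add, Pi.add_apply, LinearMap.pi_apply, LinearMap.pi_apply, h.vanish u hu _ hb.1,
          h.deg _ hb.1 i hb.2 v hv]
        simp
      · intro hf
        have h1 := h.red f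
        have h2 : ∑ β ∈ B, Λ β f • monomial β (1 : K) ∈ mPow K i := by
          refine Submodule.sum_mem _ (fun β hβ => ?_)
          by_cases hd : β.degree < i
          · have := congrFun hf ⟨β, Finset.mem_filter.mpr ⟨hβ, hd⟩⟩
            rw [LinearMap.pi_apply, Pi.zero_apply] at this
            simp only at this
            rw [this, zero_smul]
            exact (mPow K i).zero_mem
          · exact smul_mem' _ _ (mono_mem_mPow (by omega))
        have h3 := add_mem (Ideal.mem_sup_left h1 : _ ∈ I ⊔ mPow K i) (Ideal.mem_sup_right h2)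
        rwa [sub_add_cancel] at h3)
    (h.surj _ (Finset.filter_subset _ _))
  rw [F.finrank_eq, Module.finrank_fintype_fun_eq_card, Fintype.card_coe]

lemma NF.inChart {T : ℕ → ℕ} (hI : IsCI T I) (h : NF I B Λ) :
    InChart B (⟨I, hI⟩ : CI K T) := by
  classical
  obtain ⟨F, hF⟩ := exists_equiv I (LinearMap.pi (fun b : B => Λ b.1)) (by
      intro f
      constructor
      · intro hf
        ext b
        exact h.vanish f hf _ b.2
      · intro hf
        have h1 := h.red f
        have h2 : ∑ β ∈ B, Λ β f • monomial β (1 : K) = 0 := by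
          refine Finset.sum_eq_zero (fun β hβ => ?_)
          have := congrFun hf ⟨β, hβ⟩
          rw [LinearMap.pi_apply, Pi.zero_apply] at this
          simp only at this
          rw [this, zero_smul]
        rwa [h2, sub_zero] at h1) (h.surj B (Finset.Subset.refl B))
  have hli : LinearIndependent K (fun b : B => cls (⟨I, hI⟩ : CI K T) b.1) := by
    rw [← LinearMap.linearIndependent_iff F.toLinearMap F.ker]
    have h0 : F.toLinearMap ∘ (fun b : B => cls (⟨I, hI⟩ : CI K T) b.1) =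
        fun b : B => Pi.single b (1 : K) := by
      funext b
      have h1 : F (cls (⟨I, hI⟩ : CI K T) b.1) = _ := hF _
      show F (cls (⟨I, hI⟩ : CI K T) b.1) = _
      rw [h1]
      ext c
      rw [LinearMap.pi_apply]
      by_cases hbc : c = b
      · subst hbc; rw [Pi.single_eq_same, h.self _ c.2]
      · rw [Pi.single_eq_of_ne hbc, h.dual _ c.2 _ b.2 (fun hh => hbc (Subtype.ext hh))]
    rw [h0]
    exact Pi.linearIndependent_single_one B K
  refine ⟨hli, ?_⟩
  have : FiniteDimensional K (MvPowerSeries (Fin 3) K ⧸ I) := Module.Finite.equiv F.symm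
  apply hli.span_eq_top_of_card_eq_finrank'
  rw [F.finrank_eq, Module.finrank_fintype_fun_eq_card]

lemma NF.coord {T : ℕ → ℕ} (hI : IsCI T I) (h : NF I B Λ)
    {c : (Fin 3 →₀ ℕ) → (Fin 3 →₀ ℕ) → K} (hc : IsCoord B (⟨I, hI⟩ : CI K T) c)
    (α : Fin 3 →₀ ℕ) {β : Fin 3 →₀ ℕ} (hβ : β ∈ B) : c α β = Λ β (monomial α 1) := by
  classical
  have h1 := (isCoord_iff.mp hc).1 α
  have h2 := h.vanish _ h1 β hβ
  rw [map_sub, map_sum, Finset.sum_eq_single β] at h2
  · rw [map_smul, h.self β hβ, smul_eq_mul, mul_one, sub_eq_zero] at h2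
    exact h2.symm
  · intro γ hγ hne
    rw [map_smul, h.dual β hβ γ hγ hne.symm, smul_zero]
  · intro hb; exact absurd hβ hb

end Pool.Agent.R832.CI
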